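import Pool.Agent.NRG.G10Class

/-!
# Reduction of the closedness of all measures to wild polynomials
-/

open MvPolynomial MeasureTheory Filter Topology Pool.Agent.H27Mahler
open Pool.Agent.SpCl Pool.Agent.NRC

namespace Pool.Agent.NRG

/-- irreducible polynomials which are constant, nonreciprocal, sparse in some direction, or have a
partner of height at most `c` -/
def TameC {σ : Type} [Fintype σ] (m : ℕ) (c : ℝ) (P : MvPolynomial σ ℤ) : Prop :=
  Tame m P ∨ Part c P

/-- the bound for the heights -/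
noncomputable def cX (m : ℕ) (c X : ℝ) : ℝ :=
  max c (Real.log 2 + 2 * (|Real.log (m * 2 ^ m)| + X))

theorem part_tameC {σ : Type} [Fintype σ] {m : ℕ} {c X : ℝ} {P : MvPolynomial σ ℤ}
    (hP : Irreducible P) (hX : mm P ≤ X) (h : TameC m c P) : Part (cX m c X) P := by
  rcases h with h | h
  · exact (part_tame hP hX h).mono (le_max_right _ _)
  · exact h.mono (le_max_left _ _)

/-- the logarithmic measures of all polynomials -/
def LLog : Set ℝ := {x | ∃ (k : ℕ) (F : MvPolynomial (Fin k) ℤ), F ≠ 0 ∧ mm F = x}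

/-- the logarithmic measures of the products of wild irreducible polynomials -/
def WLog (m : ℕ) (c : ℝ) : Set ℝ := {x | ∃ (k : ℕ) (s : Multiset (MvPolynomial (Fin k) ℤ)),
  (∀ P ∈ s, Irreducible P ∧ ¬ TameC m c P) ∧ mm s.prod = x}

theorem LLog_nonneg {x : ℝ} (hx : x ∈ LLog) : 0 ≤ x := by
  obtain ⟨k, F, -, rfl⟩ := hx
  exact mm_nonneg F

theorem add_mem_LLog {x y : ℝ} (hx : x ∈ LLog) (hy : y ∈ LLog) : x + y ∈ LLog := by
  obtain ⟨k, F, hF, rfl⟩ := hx
  obtain ⟨k', G, hG, rfl⟩ := hy
  have hk : k ≤ max k k' := le_max_left _ _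
  have hk' : k' ≤ max k k' := le_max_right _ _
  have hF' : rename (Fin.castLE hk) F ≠ 0 := by
    rw [Ne, ← map_zero (rename (Fin.castLE hk)), (rename_injective _ (Fin.castLE_injective hk)).eq_iff]
    exact hF
  have hG' : rename (Fin.castLE hk') G ≠ 0 := by
    rw [Ne, ← map_zero (rename (Fin.castLE hk')),
      (rename_injective _ (Fin.castLE_injective hk')).eq_iff]
    exact hG
  exact ⟨max k k', rename (Fin.castLE hk) F * rename (Fin.castLE hk') G, mul_ne_zero hF' hG',
    by rw [mm_mul hF' hG', mm_rename _ (Fin.castLE_injective hk),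
      mm_rename _ (Fin.castLE_injective hk')]⟩

theorem PP_subset_LLog (c : ℝ) : PP c ⊆ LLog := by
  rintro x ⟨k, s, hs, rfl⟩
  exact ⟨k, s.prod, (mm_prod s fun P hP => (hs P hP).1).1, rfl⟩

theorem WLog_subset_LLog (m : ℕ) (c : ℝ) : WLog m c ⊆ LLog := by
  rintro x ⟨k, s, hs, rfl⟩
  exact ⟨k, s.prod, (mm_prod s fun P hP => (hs P hP).1.ne_zero).1, rfl⟩

/-- splitting into a tame and a wild part -/
theorem split {σ : Type} [Fintype σ] {m : ℕ} {c X : ℝ} (F : MvPolynomial σ ℤ) :
    F ≠ 0 → mm F ≤ X →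
    ∃ s t : Multiset (MvPolynomial σ ℤ), (∀ P ∈ s, Part (cX m c X) P) ∧
      (∀ P ∈ t, Irreducible P ∧ ¬ TameC m c P) ∧ (s.map mm).sum + (t.map mm).sum = mm F := by
  classical
  refine WfDvdMonoid.induction_on_irreducible (motive := fun F : MvPolynomial σ ℤ =>
    F ≠ 0 → mm F ≤ X →
    ∃ s t : Multiset (MvPolynomial σ ℤ), (∀ P ∈ s, Part (cX m c X) P) ∧
      (∀ P ∈ t, Irreducible P ∧ ¬ TameC m c P) ∧ (s.map mm).sum + (t.map mm).sum = mm F) F ?_ ?_ ?_
  · intro h; exact absurd rfl h
  · intro u hu _ _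
    exact ⟨0, 0, by simp, by simp, by rw [mm_unit hu]; simp⟩
  · intro a i ha hi ih _ hX
    have hi0 : i ≠ 0 := hi.ne_zero
    have hmul := mm_mul hi0 ha
    have hni := mm_nonneg i
    have hna := mm_nonneg a
    obtain ⟨s, t, hs, ht, hsum⟩ := ih ha (by linarith)
    by_cases h0 : TameC m c i
    · refine ⟨i ::ₘ s, t, ?_, ht, ?_⟩
      · intro P hP
        rcases Multiset.mem_cons.mp hP with rfl | hP
        · exact part_tameC hi (by linarith) h0
        · exact hs P hP
      · rw [Multiset.map_cons, Multiset.sum_cons, hmul, ← hsum]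
        ring
    · refine ⟨s, i ::ₘ t, hs, ?_, ?_⟩
      · intro P hP
        rcases Multiset.mem_cons.mp hP with rfl | hP
        · exact ⟨hi, h0⟩
        · exact ht P hP
      · rw [Multiset.map_cons, Multiset.sum_cons, hmul, ← hsum]
        ring

/-- all measures form a closed set as soon as the limits of wild measures are measures -/
theorem isClosed_LLog_of_wild {m : ℕ} {c : ℝ} (h : closure (WLog m c) ⊆ LLog) :
    IsClosed LLog := by
  rw [← isSeqClosed_iff_isClosed]
  intro v x hv hx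
  choose k F hF hm using hv
  -- a bound for all the terms
  obtain ⟨X, hX⟩ := hx.bddAbove_range
  have hX' : ∀ n, mm (F n) ≤ X := fun n => by
    rw [hm]
    exact hX ⟨n, rfl⟩
  choose s t hs ht hst using fun n => split (m := m) (c := c) (F n) (hF n) (hX' n)
  have hsm : ∀ n, ((s n).map mm).sum ∈ PP (cX m c X) := fun n =>
    ⟨k n, s n, hs n, (mm_prod (s n) fun P hP => (hs n P hP).1).2⟩
  have htm : ∀ n, ((t n).map mm).sum ∈ WLog m c := fun n =>
    ⟨k n, t n, ht n, (mm_prod (t n) fun P hP => (ht n P hP).1.ne_zero).2⟩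
  have hs0 : ∀ n, 0 ≤ ((s n).map mm).sum := fun n => PP_nonneg (hsm n)
  have ht0 : ∀ n, 0 ≤ ((t n).map mm).sum := fun n => LLog_nonneg (WLog_subset_LLog m c (htm n))
  set l : Ultrafilter ℕ := Ultrafilter.of atTop with hl
  have hle : (l : Filter ℕ) ≤ atTop := Ultrafilter.of_le atTop
  have hsb : ∀ n, ((s n).map mm).sum ∈ Set.Icc (0 : ℝ) X := fun n =>
    ⟨hs0 n, by have := hst n; have := hX' n; have := ht0 n; linarith⟩
  obtain ⟨y, hy1, hy⟩ := isCompact_Icc.ultrafilter_le_nhds (l.map fun n => ((s n).map mm).sum)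
    (by
      rw [Filter.le_principal_iff, Ultrafilter.mem_coe, Ultrafilter.mem_map]
      exact Filter.mem_of_superset Filter.univ_mem fun n _ => hsb n)
  have hy' : Tendsto (fun n => ((s n).map mm).sum) (l : Filter ℕ) (𝓝 y) := hy
  have hyP : y ∈ PP (cX m c X) :=
    (isClosed_PP _).mem_of_tendsto hy' (Eventually.of_forall hsm)
  have hz' : Tendsto (fun n => ((t n).map mm).sum) (l : Filter ℕ) (𝓝 (x - y)) := by
    refine ((hx.mono_left hle).sub hy').congr fun n => ?_
    rw [← hm, ← hst n]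
    ring
  have hzW : x - y ∈ closure (WLog m c) :=
    mem_closure_of_tendsto hz' (Eventually.of_forall htm)
  have := add_mem_LLog (PP_subset_LLog _ hyP) (h hzW)
  rwa [add_sub_cancel] at this

theorem isClosed_LLog_iff (m : ℕ) (c : ℝ) : IsClosed LLog ↔ closure (WLog m c) ⊆ LLog :=
  ⟨fun h => closure_minimal (WLog_subset_LLog m c) h, isClosed_LLog_of_wild⟩

/-- the integral over the unit cube is the height of the pair -/
theorem integral_cube_eq_LL {k : ℕ} (A B : MvPolynomial (Fin k) ℤ) :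
    ∫ t in Set.Icc (0 : Fin k → ℝ) 1, Real.log (‖MvPolynomial.eval
      (fun j => Complex.exp (2 * Real.pi * Complex.I * (t j : ℂ)))
      (MvPolynomial.map (Int.castRingHom ℂ) A)‖ ^ 2 + ‖MvPolynomial.eval
      (fun j => Complex.exp (2 * Real.pi * Complex.I * (t j : ℂ)))
      (MvPolynomial.map (Int.castRingHom ℂ) B)‖ ^ 2) = LL A B := by
  rw [← mm_cc, ← integral_cube_eq_mm]
  congr 1
  funext t
  have h4 : ∀ F : MvPolynomial (Fin k) ℤ, MvPolynomial.eval
      (fun j => Complex.exp (2 * Real.pi * Complex.I * (t j : ℂ)))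
      (MvPolynomial.map (Int.castRingHom ℂ) F) = ev (fun i => ((t i : ℝ) : UnitAddCircle)) F := by
    intro F
    rw [eval_map, ev, coe_eval₂Hom]
    congr 1
    funext j
    rw [AddCircle.toCircle_apply_mk, Circle.coe_exp]
    congr 1
    push_cast
    ring
  rw [h4, h4, h4, norm_ev_cc]

end Pool.Agent.NRG
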