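import Pool.Agent.NRG.G10Class

/-!
# Boundedly many variables
-/

open MvPolynomial MeasureTheory Filter Topology Pool.Agent.H27Mahler
open Pool.Agent.SpCl Pool.Agent.NRC

namespace Pool.Agent.NRG

theorem finrank_part {σ : Type} [Fintype σ] {c : ℝ} {P : MvPolynomial σ ℤ} (h : Part c P) :
    Fintype.card σ ≤ Module.finrank ℝ ↥(HS P) + dimBound c := by
  obtain ⟨h0, Q, hQ, h1, h2⟩ := h
  have h3 := finrank_coprime h0 hQ h1 h2
  have h4 := Submodule.finrank_mono (inf_le_left : HS P ⊓ HS Q ≤ HS P)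
  omega

theorem finrank_prod {σ : Type} [Fintype σ] {c : ℝ} (s : Multiset (MvPolynomial σ ℤ))
    (hs : ∀ P ∈ s, Part c P) :
    Fintype.card σ ≤ Module.finrank ℝ ↥(HS s.prod) + Multiset.card s * dimBound c := by
  induction s using Multiset.induction_on with
  | empty =>
    have h1 : (1 : MvPolynomial σ ℤ) = C 1 := C_1.symm
    rw [Multiset.prod_zero, h1, HS_C, finrank_top, Module.finrank_pi]
    omega
  | cons P s ih =>
    have h1 := ih fun Q hQ => hs Q (Multiset.mem_cons_of_mem hQ)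
    have h2 := finrank_part (hs P (Multiset.mem_cons_self _ _))
    have h3 := Submodule.finrank_sup_add_finrank_inf_eq (HS P) (HS s.prod)
    have h4 : Module.finrank ℝ ↥(HS P ⊔ HS s.prod) ≤ Module.finrank ℝ (σ → ℝ) :=
      Submodule.finrank_le _
    have h5 : Module.finrank ℝ (σ → ℝ) = Fintype.card σ := Module.finrank_pi ℝ
    have h6 := Submodule.finrank_mono (HS_mul_ge P s.prod)
    rw [Multiset.prod_cons, Multiset.card_cons]
    have h7 : (Multiset.card s + 1) * dimBound c = Multiset.card s * dimBound c + dimBound c := by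
      ring
    omega

/-- the bounded elements of the closed set need only boundedly many variables -/
theorem vars_PP (c X : ℝ) : ∃ K : ℕ, ∀ x ∈ PP c, x ≤ X →
    ∃ G : MvPolynomial (Fin K) ℤ, G ≠ 0 ∧ mm G = x := by
  classical
  obtain ⟨ε, hε, hgap⟩ := gap_SS c
  refine ⟨⌈X / ε⌉₊ * dimBound c, ?_⟩
  rintro x ⟨k, s, hs, rfl⟩ hX
  set s1 := s.filter fun P => mm P ≠ 0 with hs1
  have hs1P : ∀ P ∈ s1, Part c P ∧ ε ≤ mm P := by
    intro P hP
    obtain ⟨h1, h2⟩ := Multiset.mem_filter.mp hP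
    exact ⟨hs P h1, (hgap _ ⟨k, P, hs P h1, rfl⟩).resolve_left h2⟩
  have hsum : (s1.map mm).sum = mm s.prod := by
    rw [(mm_prod s fun P hP => (hs P hP).1).2]
    conv_rhs => rw [← Multiset.filter_add_not (fun P => mm P ≠ 0) s]
    rw [Multiset.map_add, Multiset.sum_add]
    have h1 : ((s.filter fun P => ¬ mm P ≠ 0).map mm).sum = 0 := by
      refine Multiset.sum_eq_zero fun v hv => ?_
      obtain ⟨P, hP, rfl⟩ := Multiset.mem_map.mp hv
      have := (Multiset.mem_filter.mp hP).2
      push Not at this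
      exact this
    rw [h1, add_zero]
  obtain ⟨h0, hm⟩ := mm_prod s1 fun P hP => (hs1P P hP).1.1
  have hcard : Multiset.card s1 ≤ ⌈X / ε⌉₊ := by
    have h1 : (Multiset.card s1 : ℝ) * ε ≤ (s1.map mm).sum := by
      have := Multiset.card_nsmul_le_sum (s := s1.map mm) (a := ε) fun v hv => by
        obtain ⟨P, hP, rfl⟩ := Multiset.mem_map.mp hv
        exact (hs1P P hP).2
      rwa [nsmul_eq_mul, Multiset.card_map] at this
    have h2 : (Multiset.card s1 : ℝ) ≤ X / ε := by
      rw [le_div_iff₀ hε]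
      exact h1.trans (hsum.trans_le hX)
    exact_mod_cast h2.trans (Nat.le_ceil _)
  have hdim := finrank_prod s1 fun P hP => (hs1P P hP).1
  have h2 : Multiset.card s1 * dimBound c ≤ ⌈X / ε⌉₊ * dimBound c := Nat.mul_le_mul_right _ hcard
  obtain ⟨G, h3, -, h4⟩ := reduce_vars (⌈X / ε⌉₊ * dimBound c) s1.prod.totalDegree k
    (Fin k) s1.prod (Fintype.card_fin k) h0 (fun i => degreeOf_le_totalDegree _ i) (by omega)
  exact ⟨G, h3, by rw [h4, hm, hsum]⟩

end Pool.Agent.NRG
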