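import Pool.Agent.NRC.N12ThmD

/-!
# The sharp form of the inequality between generic and specialised pairs

`BdS P Q L`: some real polynomial `q` with constant term `1` satisfies `‖q P‖² + ‖q Q‖² ≤ L` (in `ℓ²`).
-/

open MvPolynomial MeasureTheory Matrix Filter Topology Pool.Agent.H27Mahler Pool.Agent.SpCl
open Pool.Agent.NRC

namespace Pool.Agent.NRG

/-- there is a real polynomial `q` with constant term `1` such that the sum of the squared
`ℓ²`-norms of `q P` and `q Q` is at most `L` -/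
def BdS (P Q : LZ) (L : ℝ) : Prop :=
  ∃ q : Polynomial ℝ, q.coeff 0 = 1 ∧ ∀ A : Finset ℤ, ∑ e ∈ A, ((cf q P e) ^ 2 + (cf q Q e) ^ 2) ≤ L

theorem BdS.mono {P Q : LZ} {L L' : ℝ} (h : BdS P Q L) (hL : L ≤ L') : BdS P Q L' := by
  obtain ⟨q, h0, h1⟩ := h
  exact ⟨q, h0, fun A => (h1 A).trans hL⟩

theorem BdS.bd {P Q : LZ} {L : ℝ} (h : BdS P Q L) : Bd P Q L := by
  obtain ⟨q, h0, h1⟩ := h
  refine ⟨q, h0, fun A => (Finset.sum_le_sum fun e _ => ?_).trans (h1 A),
    fun A => (Finset.sum_le_sum fun e _ => ?_).trans (h1 A)⟩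
  · have := sq_nonneg (cf q Q e); linarith
  · have := sq_nonneg (cf q P e); linarith

theorem rho_row_le_sum {K : ℕ} (γ : Fin K → ℤ) (P Q : LZ) (N : ℕ) (q : Polynomial ℝ) (L : ℝ)
    (hinj : Function.Injective fun s : Fin K → Fin N => wt γ (bx s))
    (h1 : ∀ A : Finset ℤ, ∑ e ∈ A, ((cf q P e) ^ 2 + (cf q Q e) ^ 2) ≤ L) (e : ℤ) :
    rho q (row γ P Q N) e ≤ L := by
  classical
  have hinj' : Function.Injective fun s : Fin K → Fin N => e - wt γ (bx s) := by
    intro s t hst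
    apply hinj
    simp only at hst ⊢
    linarith
  rw [rho_row]
  have e1 := h1 (Finset.univ.image fun s : Fin K → Fin N => e - wt γ (bx s))
  rw [Finset.sum_image fun s _ t _ h => hinj' h] at e1
  exact e1

private theorem lemDS_support {K : ℕ} {A b : MvPolynomial (Fin K) ℤ} {N : ℕ}
    (hb : ∀ s ∈ b.support, ∀ i, s i < N) (hA : ∀ i, A.degreeOf i < N) :
    ∀ s ∈ (b * A).support, ∀ i, s i < 2 * N := by
  classical
  intro s hs i
  have h1 := MvPolynomial.support_mul _ _ hs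
  rw [Finset.mem_add] at h1
  obtain ⟨s1, h2, s2, h3, rfl⟩ := h1
  have h4 := hb s1 h2 i
  have h5 : s2 i ≤ A.degreeOf i := by
    rw [MvPolynomial.degreeOf_eq_sup]
    exact Finset.le_sup (f := fun m : Fin K →₀ ℕ => m i) h3
  have h6 := hA i
  rw [Finsupp.add_apply]
  omega

private theorem lemDS_row {K : ℕ} {A B : MvPolynomial (Fin K) ℤ} {N : ℕ} (t : Wx A B N) :
    Pi.single t (1 : ℤ) ᵥ* vm A B N = vm A B N t := by
  classical
  rw [Matrix.single_one_vecMul]
  rfl

private theorem lemDS_kills {K : ℕ} {γ : Fin K → ℤ} {P Q : LZ} {A B : MvPolynomial (Fin K) ℤ}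
    (hrel : sp γ A * Q = sp γ B * P) (N : ℕ) (t : Wx A B N) (e : ℤ) :
    ∑ i, row γ P Q N e i * vm A B N t i = 0 := by
  classical
  refine (row_kernel γ P Q N (vm A B N t)).mpr ?_ e
  have h1 := vecMul_vm_inl A B N (Pi.single t 1)
  have h2 := vecMul_vm_inr A B N (Pi.single t 1)
  rw [lemDS_row] at h1 h2
  rw [h1, h2, map_mul, map_mul, mul_assoc, ← hrel, mul_assoc]

theorem lemDS {K : ℕ} {γ : Fin K → ℤ} {P Q : LZ} (hQ : Q ≠ 0)
    {A B : MvPolynomial (Fin K) ℤ} (hA : A ≠ 0) (hB : B ≠ 0) (hAB : IsRelPrime A B)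
    (hrel : sp γ A * Q = sp γ B * P) (N : ℕ) (hN : ∀ i, cd A B i < N)
    (hinj : Set.InjOn (wt γ) {s : Fin K →₀ ℕ | ∀ i, s i < 2 * N}) {M : ℝ} (hM : BdS P Q M) :
    ((∏ i, (N - cd A B i) : ℕ) : ℝ) * LL A B ≤
      ((2 * N ^ K - ∏ i, (N - cd A B i) : ℕ) : ℝ) * Real.log M := by
  classical
  obtain ⟨q, hq0, h1⟩ := hM
  set R := row γ P Q N with hR
  obtain ⟨E, hE1, hE2, hE3, -⟩ := exists_rows R (row_finite γ P Q N) q hq0
  obtain ⟨X, hX⟩ := exists_vm_inverse hA hAB N
  have hRv : RE R E * (vm A B N)ᵀ = 0 := by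
    ext e t
    rw [Matrix.mul_apply]
    exact lemDS_kills hrel N t e
  have hker : ∀ x : Ix K N → ℤ, RE R E *ᵥ x = 0 → ∃ y : Wx A B N → ℤ, x = y ᵥ* vm A B N := by
    intro x hx
    have h3 : ∀ e ∈ E, ∑ i, R e i * x i = 0 := fun e he => congrFun hx ⟨e, he⟩
    have h4 := (row_kernel γ P Q N x).mp (hE1 x h3)
    have h5 := mul_pair_eq (a := pol fun s => x (Sum.inr s)) (b := pol fun s => x (Sum.inl s)) hQ N
      hrel h4 ?_ hinj
    · exact exists_cof hA hB hAB N (fun i => (hN i).le) x h5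
    · intro s hs i
      have h6 := MvPolynomial.support_sub _ _ _ hs
      rcases Finset.mem_union.mp h6 with h7 | h7
      · exact lemDS_support (pol_support_lt _) (fun i => (le_max_left _ _).trans_lt (hN i)) s h7 i
      · exact lemDS_support (pol_support_lt _) (fun i => (le_max_right _ _).trans_lt (hN i)) s h7 i
  have hcard := card_add_card (RE R E) (vm A B N) X hX hRv hE2 hker
  have hdet := gram_le_gram (RE R E) (vm A B N) X hX hRv hcard hE2
  set G : Matrix (Wx A B N) (Wx A B N) ℝ := ((vm A B N) * (vm A B N)ᵀ).map (Int.castRingHom ℝ)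
    with hG
  have hGs : G.IsHermitian := by
    ext t t'
    rw [Matrix.conjTranspose_apply, star_trivial, hG, Matrix.map_apply, Matrix.map_apply]
    congr 1
    rw [Matrix.mul_apply, Matrix.mul_apply]
    exact Finset.sum_congr rfl fun i _ => by
      rw [Matrix.transpose_apply, Matrix.transpose_apply, mul_comm]
  have hlog := log_det_ge (A := A) (B := B) hA (tx : Wx A B N → (Fin K →₀ ℕ)) tx_injective G hGs ?_
  swap
  · intro c
    exact vm_form A B N c
  have hGdet : G.det = (((vm A B N) * (vm A B N)ᵀ).det : ℝ) := by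
    rw [hG, ← RingHom.mapMatrix_apply, ← RingHom.map_det]
    rfl
  have hinj' : Function.Injective fun s : Fin K → Fin N => wt γ (bx s) := by
    intro s t hst
    apply bx_injective
    refine hinj ?_ ?_ hst
    · intro i
      have := (s i).2
      rw [bx_apply]
      omega
    · intro i
      have := (t i).2
      rw [bx_apply]
      omega
  have hprod : ∏ e ∈ E, rho q R e ≤ M ^ E.card := by
    rw [← Finset.prod_const]
    exact Finset.prod_le_prod (fun e _ => rho_nonneg q R e)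
      fun e _ => rho_row_le_sum γ P Q N q M hinj' h1 e
  have h8 : G.det ≤ M ^ E.card := by
    rw [hGdet]
    refine le_trans ?_ (hE3.trans hprod)
    exact_mod_cast hdet
  have h9 : Real.log G.det ≤ (E.card : ℝ) * Real.log M := by
    rw [← Real.log_pow]
    exact Real.log_le_log hlog.1 h8
  have h10 : Fintype.card (Wx A B N) = ∏ i, (N - cd A B i) := by
    rw [Fintype.card_pi]
    simp
  have h11 : Fintype.card (Ix K N) = 2 * N ^ K := by
    simp [Fintype.card_sum]
    ring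
  rw [h10, h11, Fintype.card_coe] at hcard
  have h12 : E.card = 2 * N ^ K - ∏ i, (N - cd A B i) := by omega
  rw [← h12, ← h10]
  exact hlog.2.trans h9

private theorem thmDS_tendsto {K : ℕ} (c : Fin K → ℕ) :
    Tendsto (fun N : ℕ => ((∏ i, (N - c i) : ℕ) : ℝ) / (N : ℝ) ^ K) atTop (𝓝 1) := by
  have h1 : Tendsto (fun N : ℕ => ∏ i : Fin K, (1 - (c i : ℝ) / (N : ℝ))) atTop
      (𝓝 (∏ _i : Fin K, (1 : ℝ))) := by
    apply tendsto_finsetProd
    intro i _
    have := (tendsto_const_div_atTop_nhds_zero_nat (c i : ℝ)).const_sub 1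
    simpa using this
  rw [Finset.prod_const_one] at h1
  refine h1.congr' ?_
  have hbig : ∀ᶠ N : ℕ in atTop, ∀ i : Fin K, c i < N :=
    eventually_all.2 fun i => eventually_gt_atTop (c i)
  filter_upwards [hbig, eventually_gt_atTop 0] with N hN hN0
  have hNr : (N : ℝ) ≠ 0 := by exact_mod_cast hN0.ne'
  have hcast : ((∏ i, (N - c i) : ℕ) : ℝ) = ∏ i : Fin K, ((N : ℝ) - c i) := by
    rw [Nat.cast_prod]
    refine Finset.prod_congr rfl fun i _ => ?_
    rw [Nat.cast_sub (hN i).le]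
  have hpow : (N : ℝ) ^ K = ∏ _i : Fin K, (N : ℝ) := by simp
  rw [hcast, hpow, ← Finset.prod_div_distrib]
  refine Finset.prod_congr rfl fun i _ => ?_
  field_simp

/-- sharp form of Theorem D -/
theorem thmDS {K : ℕ} {l : Filter ℕ} [l.NeBot] {γ : ℕ → Fin K → ℤ} (hγ : Free l γ) {P Q : ℕ → LZ}
    (hQ : ∀ᶠ n in l, Q n ≠ 0) {A B : MvPolynomial (Fin K) ℤ} (hA : A ≠ 0)
    (hB : B ≠ 0) (hAB : IsRelPrime A B) (hrel : ∀ᶠ n in l, sp (γ n) A * Q n = sp (γ n) B * P n)
    {M : ℝ} (hM : ∀ᶠ n in l, BdS (P n) (Q n) M) : LL A B ≤ Real.log M := by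
  have hbig : ∀ᶠ N : ℕ in atTop, ∀ i : Fin K, cd A B i < N :=
    eventually_all.2 fun i => eventually_gt_atTop (cd A B i)
  have hineq : ∀ᶠ N : ℕ in atTop,
      ((∏ i, (N - cd A B i) : ℕ) : ℝ) / (N : ℝ) ^ K * LL A B ≤
        (2 - ((∏ i, (N - cd A B i) : ℕ) : ℝ) / (N : ℝ) ^ K) * Real.log M := by
    filter_upwards [hbig, eventually_gt_atTop 0] with N hN hN0
    have hfin : {s : Fin K →₀ ℕ | ∀ i, s i < 2 * N}.Finite := by
      refine (Set.finite_Iic (Finsupp.equivFunOnFinite.symm (fun _ : Fin K => 2 * N))).subset ?_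
      intro s hs
      rw [Set.mem_Iic, Finsupp.le_def]
      intro i
      exact (hs i).le
    have hinj := hγ.injOn hfin.toFinset
    rw [Set.Finite.coe_toFinset] at hinj
    obtain ⟨n, ⟨⟨hn1, hn2⟩, hn3⟩, hn4⟩ := (((hinj.and hrel).and hM).and hQ).exists
    have h := lemDS hn4 hA hB hAB hn2 N hN hn1 hn3
    have hle : (∏ i, (N - cd A B i) : ℕ) ≤ 2 * N ^ K := by
      calc (∏ i, (N - cd A B i) : ℕ) ≤ ∏ _i : Fin K, N :=
            Finset.prod_le_prod' fun i _ => Nat.sub_le _ _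
        _ = N ^ K := by simp
        _ ≤ 2 * N ^ K := by omega
    rw [Nat.cast_sub hle] at h
    push_cast at h
    have hNr : (0 : ℝ) < (N : ℝ) ^ K := by
      have : (0 : ℝ) < N := by exact_mod_cast hN0
      positivity
    push_cast
    have e1 : (∏ i, ((N - cd A B i : ℕ) : ℝ)) / (N : ℝ) ^ K * LL A B =
        (∏ i, ((N - cd A B i : ℕ) : ℝ)) * LL A B / (N : ℝ) ^ K := by ring
    have e2 : (2 - (∏ i, ((N - cd A B i : ℕ) : ℝ)) / (N : ℝ) ^ K) * Real.log M =
        (2 * (N : ℝ) ^ K - ∏ i, ((N - cd A B i : ℕ) : ℝ)) * Real.log M / (N : ℝ) ^ K := by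
      field_simp
    rw [e1, e2]
    exact div_le_div_of_nonneg_right h hNr.le
  have ht := thmDS_tendsto (cd A B)
  have hl := (ht.mul_const (LL A B))
  have hr := ((ht.const_sub 2).mul_const (Real.log M))
  have := le_of_tendsto_of_tendsto hl hr hineq
  linarith

end Pool.Agent.NRG
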