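import Mathlib

/-!
# A self-reciprocal real polynomial without zeros on the unit circle is the square of a polynomial in
absolute value on the unit circle (Fejér-Riesz)
-/

open Polynomial

namespace Pool.Agent.NRG

/-- product of the linear factors -/
noncomputable def lf (s : Multiset ℂ) : ℂ[X] := (s.map fun a => X - C a).prod

theorem lf_cons (a : ℂ) (s : Multiset ℂ) : lf (a ::ₘ s) = (X - C a) * lf s := by
  simp [lf]

theorem roots_lf (s : Multiset ℂ) : (lf s).roots = s := by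
  rw [lf, roots_multiset_prod_X_sub_C]

theorem reverse_X_sub_C {a : ℂ} (ha : a ≠ 0) : (X - C a : ℂ[X]).reverse = C (-a) * (X - C a⁻¹) := by
  have h : (X - C a : ℂ[X]) = X + C (-a) := by rw [C_neg]; ring
  rw [h, reverse_add_C, natDegree_X, pow_one]
  have h1 : (X : ℂ[X]).reverse = 1 := by
    have := reverse_X_mul (1 : ℂ[X])
    rw [mul_one] at this
    rw [this, ← C_1, reverse_C]
  rw [h1, mul_sub, ← C_mul]
  have : -a * a⁻¹ = -1 := by field_simp
  rw [this]
  simp [add_comm]

theorem reverse_lf (s : Multiset ℂ) (h0 : (0 : ℂ) ∉ s) :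
    ∃ c : ℂ, c ≠ 0 ∧ (lf s).reverse = C c * lf (s.map fun a => a⁻¹) := by
  induction s using Multiset.induction_on with
  | empty => exact ⟨1, one_ne_zero, by simp [lf, ← C_1, reverse_C, -map_one]⟩
  | cons a s ih =>
    have ha : a ≠ 0 := by
      rintro rfl
      exact h0 (Multiset.mem_cons_self _ _)
    obtain ⟨c, hc, h⟩ := ih fun h => h0 (Multiset.mem_cons_of_mem h)
    refine ⟨-a * c, mul_ne_zero (neg_ne_zero.mpr ha) hc, ?_⟩
    rw [lf_cons, reverse_mul_of_domain, h, reverse_X_sub_C ha, Multiset.map_cons, lf_cons, C_mul]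
    ring

/-- the roots of a real self-reciprocal polynomial are symmetric with respect to the unit circle -/
theorem roots_symm {h : ℂ[X]} (h0 : h.coeff 0 ≠ 0) (hrev : h.reverse = h)
    (hreal : h.map (starRingEnd ℂ) = h) :
    h.roots.map (fun a => ((starRingEnd ℂ) a)⁻¹) = h.roots := by
  have hne : h ≠ 0 := by
    rintro rfl
    exact h0 (by simp)
  have hlf : h = C h.leadingCoeff * lf h.roots := (IsAlgClosed.splits h).eq_prod_roots
  have hz : (0 : ℂ) ∉ h.roots := by
    intro hmem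
    rw [mem_roots hne, IsRoot.def, ← coeff_zero_eq_eval_zero] at hmem
    exact h0 hmem
  have h1 : h.roots.map (starRingEnd ℂ) = h.roots := by
    rw [← (IsAlgClosed.splits h).roots_map, hreal]
  have h2 : h.roots.map (fun a => a⁻¹) = h.roots := by
    obtain ⟨c, hc, h3⟩ := reverse_lf h.roots hz
    have h4 : h = C (h.leadingCoeff * c) * lf (h.roots.map fun a => a⁻¹) := by
      conv_lhs => rw [← hrev, hlf]
      rw [reverse_mul_of_domain, reverse_C, h3, C_mul]
      ring
    have h5 : (C (h.leadingCoeff * c) * lf (h.roots.map fun a => a⁻¹)).roots =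
        h.roots.map fun a => a⁻¹ := by
      rw [roots_C_mul _ (mul_ne_zero (leadingCoeff_ne_zero.mpr hne) hc), roots_lf]
    rw [← h4] at h5
    exact h5.symm
  have h3 : h.roots.map (fun a => ((starRingEnd ℂ) a)⁻¹) =
      (h.roots.map (starRingEnd ℂ)).map fun a => a⁻¹ := by
    rw [Multiset.map_map]
    rfl
  rw [h3, h1, h2]

theorem norm_lf_eval (s : Multiset ℂ) (z : ℂ) : ‖(lf s).eval z‖ = (s.map fun a => ‖z - a‖).prod := by
  induction s using Multiset.induction_on with
  | empty => simp [lf]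
  | cons a s ih => rw [lf_cons, eval_mul, norm_mul, ih, Multiset.map_cons, Multiset.prod_cons]; simp

theorem norm_sub_inv_conj {z a : ℂ} (hz : ‖z‖ = 1) (ha : a ≠ 0) :
    ‖z - ((starRingEnd ℂ) a)⁻¹‖ = ‖z - a‖ * ‖a‖⁻¹ := by
  have ha' : (starRingEnd ℂ) a ≠ 0 := (_root_.map_ne_zero _).mpr ha
  have h1 : z * (starRingEnd ℂ) z = 1 := by
    rw [Complex.mul_conj, Complex.normSq_eq_norm_sq, hz]; simp
  have h2 : z - ((starRingEnd ℂ) a)⁻¹ = -z * ((starRingEnd ℂ) a)⁻¹ * (starRingEnd ℂ) (z - a) := by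
    rw [map_sub]
    field_simp
    linear_combination h1
  rw [h2, norm_mul, norm_mul, norm_neg, hz, norm_inv, Complex.norm_conj, Complex.norm_conj]
  ring

/-- Fejér-Riesz -/
theorem exists_sqrt {h : ℂ[X]} (h0 : h.coeff 0 ≠ 0) (hrev : h.reverse = h)
    (hreal : h.map (starRingEnd ℂ) = h) (hcirc : ∀ z : ℂ, ‖z‖ = 1 → h.eval z ≠ 0) :
    ∃ g : ℂ[X], ∀ z : ℂ, ‖z‖ = 1 → ‖h.eval z‖ = ‖g.eval z‖ ^ 2 := by
  classical
  have hne : h ≠ 0 := by
    rintro rfl
    exact h0 (by simp)
  have hlf : h = C h.leadingCoeff * lf h.roots := (IsAlgClosed.splits h).eq_prod_roots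
  have hz : ∀ a ∈ h.roots, a ≠ 0 := by
    rintro a hmem rfl
    rw [mem_roots hne, IsRoot.def, ← coeff_zero_eq_eval_zero] at hmem
    exact h0 hmem
  have hn1 : ∀ a ∈ h.roots, ‖a‖ ≠ 1 := by
    intro a hmem h1
    rw [mem_roots hne, IsRoot.def] at hmem
    exact hcirc a h1 hmem
  have hsymm := roots_symm h0 hrev hreal
  set s := h.roots with hs
  set s1 := s.filter fun a => 1 < ‖a‖ with hs1
  have hs2 : s.filter (fun a => ¬ 1 < ‖a‖) = s1.map fun a => ((starRingEnd ℂ) a)⁻¹ := by
    conv_lhs => rw [← hsymm]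
    rw [Multiset.filter_map]
    congr 1
    rw [hs1]
    refine Multiset.filter_congr fun a ha => ?_
    have ha0 : 0 < ‖a‖ := norm_pos_iff.mpr (hz a ha)
    have ha1 := hn1 a ha
    simp only [Function.comp_apply, norm_inv, Complex.norm_conj]
    rw [not_lt, inv_le_one₀ ha0]
    exact ⟨fun h => lt_of_le_of_ne h (Ne.symm ha1), fun h => h.le⟩
  have hsum : s = s1 + s1.map fun a => ((starRingEnd ℂ) a)⁻¹ := by
    rw [← hs2, hs1, Multiset.filter_add_not]
  set c : ℝ := ‖h.leadingCoeff‖ * (s1.map fun a => ‖a‖⁻¹).prod with hc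
  have hc0 : 0 ≤ c := by
    rw [hc]
    refine mul_nonneg (norm_nonneg _) (Multiset.prod_nonneg ?_)
    intro x hx
    obtain ⟨a, -, rfl⟩ := Multiset.mem_map.mp hx
    positivity
  refine ⟨C ((Real.sqrt c : ℝ) : ℂ) * lf s1, fun z hz1 => ?_⟩
  have e1 : ‖h.eval z‖ = ‖h.leadingCoeff‖ * (s.map fun a => ‖z - a‖).prod := by
    conv_lhs => rw [hlf]
    rw [eval_mul, eval_C, norm_mul, norm_lf_eval]
  have e2 : (s.map fun a => ‖z - a‖).prod =
      (s1.map fun a => ‖z - a‖).prod * ((s1.map fun a => ‖z - a‖).prod * (s1.map fun a => ‖a‖⁻¹).prod) := by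
    conv_lhs => rw [hsum]
    rw [Multiset.map_add, Multiset.prod_add, Multiset.map_map]
    congr 1
    rw [← Multiset.prod_map_mul]
    congr 1
    refine Multiset.map_congr rfl fun a ha => ?_
    exact norm_sub_inv_conj hz1 (hz a (Multiset.mem_of_mem_filter ha))
  rw [e1, e2, eval_mul, eval_C, norm_mul, norm_lf_eval, mul_pow, Complex.norm_real, Real.norm_eq_abs,
    abs_of_nonneg (Real.sqrt_nonneg c), Real.sq_sqrt hc0, hc]
  ring

/-- the same for a real polynomial symmetric with respect to some formal degree -/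
theorem exists_sqrt_reflect {f : ℂ[X]} {N : ℕ} (hN : f.natDegree ≤ N) (hrefl : f.reflect N = f)
    (hreal : f.map (starRingEnd ℂ) = f) (hcirc : ∀ z : ℂ, ‖z‖ = 1 → f.eval z ≠ 0) :
    ∃ g : ℂ[X], ∀ z : ℂ, ‖z‖ = 1 → ‖f.eval z‖ = ‖g.eval z‖ ^ 2 := by
  have hne : f ≠ 0 := by
    rintro rfl
    exact hcirc 1 (by simp) (by simp)
  have h1 : f = f.reverse * X ^ (N - f.natDegree) := by
    have h2 := reflect_mul f 1 (le_refl f.natDegree) (G := N - f.natDegree) (by simp)
    rw [mul_one, Nat.add_sub_cancel' hN, hrefl, reflect_one] at h2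
    exact h2
  have h2 : f.reverse.reverse = f.reverse := by
    conv_rhs => rw [h1]
    rw [reverse_mul_X_pow]
  have h3 : f.reverse.map (starRingEnd ℂ) = f.reverse := by
    have : f.reverse.map (starRingEnd ℂ) = (f.map (starRingEnd ℂ)).reverse := by
      rw [reverse, reverse, reflect_map, natDegree_map_eq_of_injective (RingHom.injective _)]
    rw [this, hreal]
  have h4 : ∀ z : ℂ, ‖z‖ = 1 → ‖f.eval z‖ = ‖f.reverse.eval z‖ := by
    intro z hz
    conv_lhs => rw [h1]
    rw [eval_mul, eval_pow, eval_X, norm_mul, norm_pow, hz, one_pow, mul_one]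
  obtain ⟨g, hg⟩ := exists_sqrt (h := f.reverse) (by
    rw [coeff_zero_reverse]
    exact leadingCoeff_ne_zero.mpr hne) h2 h3 (fun z hz => by
      rw [← norm_pos_iff, ← h4 z hz, norm_pos_iff]
      exact hcirc z hz)
  exact ⟨g, fun z hz => by rw [h4 z hz, hg z hz]⟩

end Pool.Agent.NRG
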