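import Pool.Agent.NRC.O02Poly
import Pool.Agent.NRC.L01Ml
import Pool.Agent.NRG.G02Fejer

/-!
# Outer polynomial of a pair of integer polynomials (Szegő's theorem)
-/

open Polynomial MeasureTheory Filter Topology

namespace Pool.Agent.NRG

/-- `‖p z‖² + ‖r z‖²` -/
noncomputable def ph (p r : ℤ[X]) (z : ℂ) : ℝ :=
  ‖(p.map (Int.castRingHom ℂ)).eval z‖ ^ 2 + ‖(r.map (Int.castRingHom ℂ)).eval z‖ ^ 2

theorem ph_nonneg (p r : ℤ[X]) (z : ℂ) : 0 ≤ ph p r z := by
  unfold ph; positivity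

theorem map_int_conj (p : ℤ[X]) :
    (p.map (Int.castRingHom ℂ)).map (starRingEnd ℂ) = p.map (Int.castRingHom ℂ) := by
  rw [Polynomial.map_map]
  congr 1
  exact Subsingleton.elim _ _

theorem eval_int_conj (p : ℤ[X]) (z : ℂ) :
    (p.map (Int.castRingHom ℂ)).eval (starRingEnd ℂ z) =
      starRingEnd ℂ ((p.map (Int.castRingHom ℂ)).eval z) := by
  conv_lhs => rw [← map_int_conj]
  rw [eval_map_apply]

theorem ph_conj (p r : ℤ[X]) (z : ℂ) : ph p r (starRingEnd ℂ z) = ph p r z := by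
  rw [ph, ph, eval_int_conj, eval_int_conj, Complex.norm_conj, Complex.norm_conj]

/-- value of the reflected polynomial on the unit circle -/
theorem eval_reflect {p : ℤ[X]} {N : ℕ} (hN : p.natDegree ≤ N) {z : ℂ} (hz : ‖z‖ = 1) :
    ((p.map (Int.castRingHom ℂ)).reflect N).eval z =
      z ^ N * starRingEnd ℂ ((p.map (Int.castRingHom ℂ)).eval z) := by
  have hz0 : z ≠ 0 := by
    rintro rfl
    simp at hz
  have hinv : z⁻¹ = starRingEnd ℂ z := Complex.inv_eq_conj hz
  let _ : Invertible (z⁻¹) := invertibleOfNonzero (inv_ne_zero hz0)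
  have h := eval₂_reflect_mul_pow (RingHom.id ℂ) (z⁻¹) N (p.map (Int.castRingHom ℂ))
    (natDegree_map_le.trans hN)
  rw [invOf_eq_inv, inv_inv] at h
  change eval z _ * _ = eval z⁻¹ _ at h
  rw [hinv, eval_int_conj, ← hinv] at h
  rw [← h]
  rw [inv_pow, mul_comm, mul_assoc, inv_mul_cancel₀ (pow_ne_zero N hz0), mul_one]

/-- the trigonometric polynomial `|p|² + |r|² + η` as an algebraic polynomial -/
noncomputable def ff (p r : ℤ[X]) (N : ℕ) (η : ℝ) : ℂ[X] :=
  p.map (Int.castRingHom ℂ) * (p.map (Int.castRingHom ℂ)).reflect N +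
    r.map (Int.castRingHom ℂ) * (r.map (Int.castRingHom ℂ)).reflect N + C (η : ℂ) * X ^ N

theorem eval_ff {p r : ℤ[X]} {N : ℕ} (hp : p.natDegree ≤ N) (hr : r.natDegree ≤ N) (η : ℝ) {z : ℂ}
    (hz : ‖z‖ = 1) : (ff p r N η).eval z = z ^ N * ((ph p r z + η : ℝ) : ℂ) := by
  rw [ff, eval_add, eval_add, eval_mul, eval_mul, eval_mul, eval_C, eval_pow, eval_X,
    eval_reflect hp hz, eval_reflect hr hz, ph]
  have h1 : ∀ w : ℂ, w * (z ^ N * starRingEnd ℂ w) = z ^ N * ((‖w‖ ^ 2 : ℝ) : ℂ) := by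
    intro w
    have : w * starRingEnd ℂ w = ((‖w‖ ^ 2 : ℝ) : ℂ) := by
      rw [Complex.mul_conj, Complex.normSq_eq_norm_sq]
    rw [← this]
    ring
  rw [h1, h1]
  push_cast
  ring

theorem norm_eval_ff {p r : ℤ[X]} {N : ℕ} (hp : p.natDegree ≤ N) (hr : r.natDegree ≤ N) {η : ℝ}
    (hη : 0 ≤ η) {z : ℂ} (hz : ‖z‖ = 1) : ‖(ff p r N η).eval z‖ = ph p r z + η := by
  rw [eval_ff hp hr η hz, norm_mul, norm_pow, hz, one_pow, one_mul, Complex.norm_real,
    Real.norm_eq_abs, abs_of_nonneg (add_nonneg (ph_nonneg p r z) hη)]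

theorem natDegree_ff {p r : ℤ[X]} {N : ℕ} (hp : p.natDegree ≤ N) (hr : r.natDegree ≤ N) (η : ℝ) :
    (ff p r N η).natDegree ≤ N + N := by
  have h1 : ∀ s : ℤ[X], s.natDegree ≤ N → (s.map (Int.castRingHom ℂ) *
      (s.map (Int.castRingHom ℂ)).reflect N).natDegree ≤ N + N := by
    intro s hs
    refine natDegree_mul_le.trans (add_le_add (natDegree_map_le.trans hs) ?_)
    refine natDegree_reflect_le.trans ?_
    exact max_le le_rfl (natDegree_map_le.trans hs)
  rw [ff]
  refine (natDegree_add_le _ _).trans (max_le ((natDegree_add_le _ _).trans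
    (max_le (h1 p hp) (h1 r hr))) ?_)
  refine (natDegree_C_mul_X_pow_le _ _).trans ?_
  omega

theorem reflect_ff {p r : ℤ[X]} {N : ℕ} (hp : p.natDegree ≤ N) (hr : r.natDegree ≤ N) (η : ℝ) :
    (ff p r N η).reflect (N + N) = ff p r N η := by
  have h1 : ∀ s : ℤ[X], s.natDegree ≤ N → (s.map (Int.castRingHom ℂ) *
      (s.map (Int.castRingHom ℂ)).reflect N).reflect (N + N) =
        s.map (Int.castRingHom ℂ) * (s.map (Int.castRingHom ℂ)).reflect N := by
    intro s hs
    rw [reflect_mul _ _ (natDegree_map_le.trans hs) (natDegree_reflect_le.trans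
      (max_le le_rfl (natDegree_map_le.trans hs))), reflect_reflect, mul_comm]
  rw [ff, reflect_add, reflect_add, h1 p hp, h1 r hr, reflect_C_mul_X_pow, revAt_le (by omega),
    Nat.add_sub_cancel]

theorem conj_ff (p r : ℤ[X]) (N : ℕ) (η : ℝ) : (ff p r N η).map (starRingEnd ℂ) = ff p r N η := by
  rw [ff, Polynomial.map_add, Polynomial.map_add, Polynomial.map_mul, Polynomial.map_mul,
    Polynomial.map_mul, ← reflect_map, ← reflect_map, map_int_conj, map_int_conj, map_C,
    Polynomial.map_pow, map_X, Complex.conj_ofReal]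

/-- outer polynomial, with perturbation -/
theorem exists_outer_eta (p r : ℤ[X]) {η δ : ℝ} (hη : 0 < η) (hδ : 0 < δ) :
    ∃ q : ℂ[X], q.coeff 0 = 1 ∧ ∀ z : ℂ, ‖z‖ = 1 → ‖q.eval z‖ ^ 2 * ph p r z ≤
      (1 + δ) ^ 2 * Real.exp (∫ t : UnitAddCircle,
        Real.log (ph p r ((AddCircle.toCircle t : Circle) : ℂ) + η)) := by
  set N := max p.natDegree r.natDegree with hN
  have hp : p.natDegree ≤ N := le_max_left _ _
  have hr : r.natDegree ≤ N := le_max_right _ _
  obtain ⟨g, hg⟩ := exists_sqrt_reflect (natDegree_ff hp hr η) (reflect_ff hp hr η) (conj_ff p r N η)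
    (fun z hz => by
      rw [← norm_pos_iff, norm_eval_ff hp hr hη.le hz]
      have := ph_nonneg p r z
      linarith)
  have hg' : ∀ z : ℂ, ‖z‖ = 1 → ‖g.eval z‖ ^ 2 = ph p r z + η := fun z hz => by
    rw [← hg z hz, norm_eval_ff hp hr hη.le hz]
  have hg0 : g ≠ 0 := by
    rintro rfl
    have := hg' 1 (by simp)
    have h2 := ph_nonneg p r 1
    simp at this
    linarith
  obtain ⟨q, hq0, hq⟩ := NRC.exists_outer g hδ
  refine ⟨q, hq0, fun z hz => ?_⟩
  have hM : g.mahlerMeasure ^ 2 = Real.exp (∫ t : UnitAddCircle,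
        Real.log (ph p r ((AddCircle.toCircle t : Circle) : ℂ) + η)) := by
    have e2 : g.mahlerMeasure = Real.exp g.logMahlerMeasure := by
      rw [logMahlerMeasure_eq_log_MahlerMeasure, Real.exp_log (mahlerMeasure_pos_of_ne_zero hg0)]
    rw [e2, ← H27Mahler.integral_log_norm_eval g, ← Real.exp_nat_mul, ← integral_const_mul]
    congr 1
    refine integral_congr_ae (Eventually.of_forall fun t => ?_)
    have hz1 : ‖((AddCircle.toCircle t : Circle) : ℂ)‖ = 1 := Circle.norm_coe _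
    show ((2 : ℕ) : ℝ) * Real.log ‖g.eval ((AddCircle.toCircle t : Circle) : ℂ)‖ =
      Real.log (ph p r ((AddCircle.toCircle t : Circle) : ℂ) + η)
    rw [← hg' _ hz1, Real.log_pow]
  rw [← hM]
  have h1 := hq z hz
  rw [eval_mul, norm_mul] at h1
  have h2 : ‖q.eval z‖ ^ 2 * ph p r z ≤ (‖q.eval z‖ * ‖g.eval z‖) ^ 2 := by
    rw [mul_pow, hg' z hz]
    have := sq_nonneg ‖q.eval z‖
    nlinarith
  refine h2.trans ?_
  rw [← mul_pow]
  exact pow_le_pow_left₀ (by positivity) h1 2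

/-- the real part of a polynomial -/
theorem exists_real_part (q : ℂ[X]) : ∃ q' : ℝ[X], q'.coeff 0 = (q.coeff 0).re ∧
    ∀ z : ℂ, ‖(q'.map (algebraMap ℝ ℂ)).eval z‖ ^ 2 ≤
      (‖q.eval z‖ ^ 2 + ‖q.eval (starRingEnd ℂ z)‖ ^ 2) / 2 := by
  let q' : ℝ[X] := ∑ i ∈ Finset.range (q.natDegree + 1), C (q.coeff i).re * X ^ i
  have hcoeff : ∀ n, q'.coeff n = (q.coeff n).re := by
    intro n
    simp only [q', finsetSum_coeff, coeff_C_mul_X_pow]
    rw [Finset.sum_ite_eq]
    split_ifs with h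
    · rfl
    · rw [Finset.mem_range, not_lt] at h
      rw [coeff_eq_zero_of_natDegree_lt (by omega)]
      simp
  have hmap : q'.map (algebraMap ℝ ℂ) = C (1/2) * (q + q.map (starRingEnd ℂ)) := by
    ext n
    rw [coeff_map, hcoeff, coeff_C_mul, coeff_add, coeff_map]
    rw [Complex.add_conj]
    simp
  refine ⟨q', hcoeff 0, fun z => ?_⟩
  have h1 : (q'.map (algebraMap ℝ ℂ)).eval z = (1/2) * (q.eval z + starRingEnd ℂ (q.eval (starRingEnd ℂ z))) := by
    rw [hmap, eval_mul, eval_C, eval_add]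
    congr 2
    rw [← eval_map_apply, Complex.conj_conj]
  have h4 : ‖(q'.map (algebraMap ℝ ℂ)).eval z‖ ≤ (1/2) * (‖q.eval z‖ + ‖q.eval (starRingEnd ℂ z)‖) := by
    rw [h1, norm_mul]
    have : ‖(1/2 : ℂ)‖ = 1/2 := by simp
    rw [this]
    refine mul_le_mul_of_nonneg_left ((norm_add_le _ _).trans ?_) (by norm_num)
    rw [Complex.norm_conj]
  refine (pow_le_pow_left₀ (norm_nonneg _) h4 2).trans ?_
  nlinarith [sq_nonneg (‖q.eval z‖ - ‖q.eval (starRingEnd ℂ z)‖)]

theorem continuous_ph (p r : ℤ[X]) :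
    Continuous fun t : UnitAddCircle => ph p r ((AddCircle.toCircle t : Circle) : ℂ) := by
  have := AddCircle.continuous_toCircle (T := (1:ℝ))
  unfold ph
  fun_prop

theorem ae_ph_pos {p : ℤ[X]} (hp : p ≠ 0) (r : ℤ[X]) :
    ∀ᵐ t : UnitAddCircle, 0 < ph p r ((AddCircle.toCircle t : Circle) : ℂ) := by
  have hp0 : p.map (Int.castRingHom ℂ) ≠ 0 := by
    rw [Ne, Polynomial.map_eq_zero_iff (RingHom.injective_int _)]
    exact hp
  filter_upwards [H27Mahler.ae_eval_ne_zero _ hp0] with t ht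
  have h1 : 0 < ‖(p.map (Int.castRingHom ℂ)).eval ((AddCircle.toCircle t : Circle) : ℂ)‖ :=
    norm_pos_iff.mpr ht
  unfold ph
  positivity

theorem integrable_log_ph {p : ℤ[X]} (hp : p ≠ 0) (r : ℤ[X]) :
    Integrable fun t : UnitAddCircle => Real.log (ph p r ((AddCircle.toCircle t : Circle) : ℂ)) := by
  have hp0 : p.map (Int.castRingHom ℂ) ≠ 0 := by
    rw [Ne, Polynomial.map_eq_zero_iff (RingHom.injective_int _)]
    exact hp
  obtain ⟨C, hC⟩ := (isCompact_range (continuous_ph p r)).bddAbove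
  have hm : ∀ s : ℤ[X], Measurable fun t : UnitAddCircle =>
      (s.map (Int.castRingHom ℂ)).eval ((AddCircle.toCircle t : Circle) : ℂ) := by
    intro s
    have := AddCircle.continuous_toCircle (T := (1:ℝ))
    exact Continuous.measurable (by fun_prop)
  exact H27Mahler.integrable_log_sq_add (hm p) (hm r) (C := C) (fun t => hC ⟨t, rfl⟩)
    (H27Mahler.integrable_log_norm_eval _) (H27Mahler.ae_eval_ne_zero _ hp0)

theorem tendsto_integral_eta {p : ℤ[X]} (hp : p ≠ 0) (r : ℤ[X]) :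
    Tendsto (fun n : ℕ => ∫ t : UnitAddCircle,
      Real.log (ph p r ((AddCircle.toCircle t : Circle) : ℂ) + 1 / ((n : ℝ) + 1))) atTop
      (𝓝 (∫ t : UnitAddCircle, Real.log (ph p r ((AddCircle.toCircle t : Circle) : ℂ)))) := by
  have hη : ∀ n : ℕ, (0 : ℝ) < 1 / ((n : ℝ) + 1) := fun n => by positivity
  have hη1 : ∀ n : ℕ, 1 / ((n : ℝ) + 1) ≤ 1 := fun n => by
    rw [div_le_one (by positivity)]
    have : (0 : ℝ) ≤ n := Nat.cast_nonneg n
    linarith
  have hc1 : ∀ η : ℝ, 0 < η → Continuous fun t : UnitAddCircle =>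
      Real.log (ph p r ((AddCircle.toCircle t : Circle) : ℂ) + η) := by
    intro η hη
    refine Continuous.log ((continuous_ph p r).add continuous_const) fun t => ?_
    have := ph_nonneg p r ((AddCircle.toCircle t : Circle) : ℂ)
    positivity
  have hi1 : Integrable fun t : UnitAddCircle =>
      Real.log (ph p r ((AddCircle.toCircle t : Circle) : ℂ) + 1) :=
    (hc1 1 one_pos).integrable_of_hasCompactSupport (HasCompactSupport.of_compactSpace _)
  refine tendsto_integral_of_dominated_convergence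
    (fun t : UnitAddCircle => |Real.log (ph p r ((AddCircle.toCircle t : Circle) : ℂ))| +
      |Real.log (ph p r ((AddCircle.toCircle t : Circle) : ℂ) + 1)|)
    (fun n => ((hc1 _ (hη n)).measurable).aestronglyMeasurable)
    ((integrable_log_ph hp r).abs.add hi1.abs) (fun n => ?_) ?_
  · filter_upwards [ae_ph_pos hp r] with t ht
    have h1 : Real.log (ph p r ((AddCircle.toCircle t : Circle) : ℂ)) ≤
        Real.log (ph p r ((AddCircle.toCircle t : Circle) : ℂ) + 1 / ((n : ℝ) + 1)) :=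
      Real.log_le_log ht (by linarith [hη n])
    have h2 : Real.log (ph p r ((AddCircle.toCircle t : Circle) : ℂ) + 1 / ((n : ℝ) + 1)) ≤
        Real.log (ph p r ((AddCircle.toCircle t : Circle) : ℂ) + 1) :=
      Real.log_le_log (by linarith [hη n]) (by linarith [hη1 n])
    rw [Real.norm_eq_abs, abs_le]
    constructor
    · have h3 := neg_abs_le (Real.log (ph p r ((AddCircle.toCircle t : Circle) : ℂ)))
      have h4 := abs_nonneg (Real.log (ph p r ((AddCircle.toCircle t : Circle) : ℂ) + 1))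
      linarith
    · have h3 := le_abs_self (Real.log (ph p r ((AddCircle.toCircle t : Circle) : ℂ) + 1))
      have h4 := abs_nonneg (Real.log (ph p r ((AddCircle.toCircle t : Circle) : ℂ)))
      linarith
  · filter_upwards [ae_ph_pos hp r] with t ht
    have h1 : Tendsto (fun n : ℕ => ph p r ((AddCircle.toCircle t : Circle) : ℂ) +
        1 / ((n : ℝ) + 1)) atTop (𝓝 (ph p r ((AddCircle.toCircle t : Circle) : ℂ) + 0)) :=
      tendsto_const_nhds.add tendsto_one_div_add_atTop_nhds_zero_nat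
    rw [add_zero] at h1
    exact (Real.continuousAt_log ht.ne').tendsto.comp h1

/-- Szegő: outer polynomial of a pair -/
theorem exists_outer_pair {p : ℤ[X]} (hp : p ≠ 0) (r : ℤ[X]) {δ : ℝ} (hδ : 0 < δ) :
    ∃ q : ℝ[X], q.coeff 0 = 1 ∧ ∀ z : ℂ, ‖z‖ = 1 →
      ‖(q.map (algebraMap ℝ ℂ)).eval z‖ ^ 2 * ph p r z ≤
        (1 + δ) * Real.exp (∫ t : UnitAddCircle,
          Real.log (ph p r ((AddCircle.toCircle t : Circle) : ℂ))) := by
  set I := ∫ t : UnitAddCircle, Real.log (ph p r ((AddCircle.toCircle t : Circle) : ℂ)) with hI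
  -- choice of the constants
  obtain ⟨n, hn⟩ : ∃ n : ℕ, (1 + 1 / ((n : ℝ) + 1)) ^ 2 * Real.exp (∫ t : UnitAddCircle,
      Real.log (ph p r ((AddCircle.toCircle t : Circle) : ℂ) + 1 / ((n : ℝ) + 1))) ≤
        (1 + δ) * Real.exp I := by
    have h1 : Tendsto (fun n : ℕ => (1 + 1 / ((n : ℝ) + 1)) ^ 2 * Real.exp (∫ t : UnitAddCircle,
      Real.log (ph p r ((AddCircle.toCircle t : Circle) : ℂ) + 1 / ((n : ℝ) + 1)))) atTop
        (𝓝 ((1 + 0) ^ 2 * Real.exp I)) :=
      ((tendsto_const_nhds.add tendsto_one_div_add_atTop_nhds_zero_nat).pow 2).mul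
        ((Real.continuous_exp.tendsto _).comp (tendsto_integral_eta hp r))
    have h2 : (1 + 0) ^ 2 * Real.exp I < (1 + δ) * Real.exp I := by
      have := Real.exp_pos I
      nlinarith
    obtain ⟨n, hn⟩ := (h1.eventually (gt_mem_nhds h2)).exists
    exact ⟨n, hn.le⟩
  obtain ⟨q, hq0, hq⟩ := exists_outer_eta p r (η := 1 / ((n : ℝ) + 1)) (δ := 1 / ((n : ℝ) + 1))
    (by positivity) (by positivity)
  obtain ⟨q', hq'0, hq'⟩ := exists_real_part q
  refine ⟨q', by rw [hq'0, hq0, Complex.one_re], fun z hz => ?_⟩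
  refine le_trans ?_ hn
  have hz' : ‖starRingEnd ℂ z‖ = 1 := by rw [Complex.norm_conj, hz]
  have h1 := hq z hz
  have h2 := hq _ hz'
  rw [ph_conj] at h2
  have h3 := mul_le_mul_of_nonneg_right (hq' z) (ph_nonneg p r z)
  refine h3.trans ?_
  linarith

end Pool.Agent.NRG
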