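import Pool.Agent.NRC.O03Bd
import Pool.Agent.NRG.G01Sharp
import Pool.Agent.NRG.G03Outer

/-!
# The outer polynomial bounds the total mass of a pair of Laurent polynomials
-/

open LaurentPolynomial MeasureTheory
open Pool.Agent.NRC

namespace Pool.Agent.NRG

/-- logarithmic height of a pair of Laurent polynomials -/
noncomputable def lp (P Q : LZ) : ℝ :=
  ∫ t : UnitAddCircle, Real.log (‖ez t P‖ ^ 2 + ‖ez t Q‖ ^ 2)

theorem parseval_pair (f g : Polynomial ℂ) {M : ℝ}
    (hM : ∀ z : ℂ, ‖z‖ = 1 → ‖f.eval z‖ ^ 2 + ‖g.eval z‖ ^ 2 ≤ M)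
    (A : Finset ℕ) : ∑ j ∈ A, (‖f.coeff j‖ ^ 2 + ‖g.coeff j‖ ^ 2) ≤ M := by
  classical
  have h1 : ∀ f : Polynomial ℂ, ∑ j ∈ A, ‖f.coeff j‖ ^ 2 ≤ ∑ j ∈ f.support, ‖f.coeff j‖ ^ 2 := by
    intro f
    rw [← Finset.sum_filter_of_ne (s := A) (p := fun j => j ∈ f.support)]
    · apply Finset.sum_le_sum_of_subset_of_nonneg
      · intro j hj
        exact (Finset.mem_filter.mp hj).2
      · intro j _ _
        positivity
    · intro j _ hj
      rw [Polynomial.mem_support_iff]
      intro h0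
      apply hj
      simp [h0]
  have hci : ∀ f : Polynomial ℂ, CircleIntegrable (fun x => ‖f.eval x‖ ^ 2) 0 1 := fun f =>
    Continuous.continuousOn (s := Metric.sphere 0 |1|) (f := fun x => ‖f.eval x‖ ^ 2) (by fun_prop)
      |>.circleIntegrable'
  rw [Finset.sum_add_distrib]
  refine (add_le_add (h1 f) (h1 g)).trans ?_
  rw [Polynomial.sum_sq_norm_coeff_eq_circleAverage, Polynomial.sum_sq_norm_coeff_eq_circleAverage,
    ← Real.circleAverage_add (hci f) (hci g)]
  apply Real.circleAverage_mono_on_of_le_circle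
  · exact (hci f).add (hci g)
  · intro z hz
    have hz1 : ‖z‖ = 1 := by simpa using hz
    exact hM z hz1

private theorem coeff_toLaurent_nat (p : Polynomial ℤ) (e : ℕ) :
    (Polynomial.toLaurent p).coeff (e : ℤ) = p.coeff e := by
  rw [LaurentPolynomial.coeff_toLaurent, ← Polynomial.toFinsupp_apply]
  have h := Finsupp.mapDomain_apply (f := Nat.castEmbedding (R := ℤ)) Nat.castEmbedding.injective
    p.toFinsupp.coeff e
  exact h

private theorem coeff_toLaurent_neg (p : Polynomial ℤ) (e : ℤ) (he : e < 0) :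
    (Polynomial.toLaurent p).coeff e = 0 := by
  rw [LaurentPolynomial.coeff_toLaurent]
  apply Finsupp.mapDomain_of_notMem_range
  rintro ⟨k, hk⟩
  have : (k : ℤ) = e := hk
  omega

private theorem cf_zero {q : Polynomial ℝ} {P : LZ} {n : ℤ} {p : Polynomial ℤ}
    (hp : Polynomial.toLaurent p = P * T n) (e : ℤ) (he : e + n < 0) : cf q P e = 0 := by
  unfold cf
  apply Finset.sum_eq_zero
  intro j _
  have h1 := coeff_mul_T P n (e + n - j)
  rw [← hp, coeff_toLaurent_neg p _ (by omega)] at h1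
  rw [show e - (j : ℤ) = e + n - j - n by ring, ← h1]
  simp

private theorem cf_eq {q : Polynomial ℝ} {P : LZ} {n : ℤ} {p : Polynomial ℤ}
    (hp : Polynomial.toLaurent p = P * T n) (e : ℕ) :
    ((cf q P (e - n) : ℝ) : ℂ) =
      (q.map (algebraMap ℝ ℂ) * p.map (Int.castRingHom ℂ)).coeff e := by
  have hmap : q.map (algebraMap ℝ ℂ) * p.map (Int.castRingHom ℂ)
      = (q * p.map (Int.castRingHom ℝ)).map (algebraMap ℝ ℂ) := by
    rw [Polynomial.map_mul, Polynomial.map_map]
    congr 2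
  rw [hmap, Polynomial.coeff_map]
  congr 1
  rw [Polynomial.coeff_mul, Finset.Nat.sum_antidiagonal_eq_sum_range_succ_mk]
  have h1 : cf q P (e - n) = ∑ j ∈ q.support,
      (if j ≤ e then q.coeff j * ((p.coeff (e - j) : ℤ) : ℝ) else 0) := by
    unfold cf
    refine Finset.sum_congr rfl fun j _ => ?_
    have h2 := coeff_mul_T P n (e - j)
    rw [← hp] at h2
    rw [show (e : ℤ) - n - j = e - j - n by ring, ← h2]
    split_ifs with hj
    · rw [show (e : ℤ) - (j : ℤ) = ((e - j : ℕ) : ℤ) by omega, coeff_toLaurent_nat]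
    · rw [coeff_toLaurent_neg p _ (by omega)]
      simp
  have h3 : ∑ k ∈ Finset.range (e + 1), q.coeff k * (p.map (Int.castRingHom ℝ)).coeff (e - k)
      = ∑ k ∈ Finset.range (e + 1),
        (if k ≤ e then q.coeff k * ((p.coeff (e - k) : ℤ) : ℝ) else 0) := by
    refine Finset.sum_congr rfl fun k hk => ?_
    rw [if_pos (by have := Finset.mem_range.mp hk; omega), Polynomial.coeff_map, eq_intCast]
  rw [h1]
  refine Eq.trans ?_ h3.symm
  have h4 := Finset.sum_subset (Finset.subset_union_left (s₁ := q.support)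
    (s₂ := Finset.range (e + 1)))
    (f := fun j => if j ≤ e then q.coeff j * ((p.coeff (e - j) : ℤ) : ℝ) else 0)
    (by
      intro x _ hx
      have : q.coeff x = 0 := Polynomial.notMem_support_iff.mp hx
      simp [this])
  have h5 := Finset.sum_subset (Finset.subset_union_right (s₁ := q.support)
    (s₂ := Finset.range (e + 1)))
    (f := fun j => if j ≤ e then q.coeff j * ((p.coeff (e - j) : ℤ) : ℝ) else 0)
    (by
      intro x _ hx
      rw [if_neg]
      intro hxe
      exact hx (Finset.mem_range.mpr (by omega)))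
  rw [h4, h5]

private theorem bound_pair {q : Polynomial ℝ} {P Q : LZ} {n : ℤ} {p r : Polynomial ℤ}
    (hp : Polynomial.toLaurent p = P * T n) (hr : Polynomial.toLaurent r = Q * T n) {M : ℝ}
    (hM : ∀ z : ℂ, ‖z‖ = 1 → ‖(q.map (algebraMap ℝ ℂ)).eval z‖ ^ 2 * ph p r z ≤ M)
    (A : Finset ℤ) : ∑ e ∈ A, ((cf q P e) ^ 2 + (cf q Q e) ^ 2) ≤ M := by
  classical
  have hinj : Set.InjOn (fun e : ℤ => (e + n).toNat)
      ((A.filter fun e => 0 ≤ e + n : Finset ℤ) : Set ℤ) := by
    intro a ha b hb hab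
    have h1 := (Finset.mem_filter.mp ha).2
    have h2 := (Finset.mem_filter.mp hb).2
    simp only at hab
    omega
  have h1 : ∑ e ∈ A, ((cf q P e) ^ 2 + (cf q Q e) ^ 2) =
      ∑ e ∈ A.filter (fun e => 0 ≤ e + n), ((cf q P e) ^ 2 + (cf q Q e) ^ 2) := by
    rw [Finset.sum_filter_of_ne]
    intro e _ he
    by_contra hcon
    exact he (by rw [cf_zero hp e (by omega), cf_zero hr e (by omega)]; simp)
  have h2 : ∑ j ∈ (A.filter fun e => 0 ≤ e + n).image (fun e : ℤ => (e + n).toNat),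
      (‖(q.map (algebraMap ℝ ℂ) * p.map (Int.castRingHom ℂ)).coeff j‖ ^ 2 +
        ‖(q.map (algebraMap ℝ ℂ) * r.map (Int.castRingHom ℂ)).coeff j‖ ^ 2)
      = ∑ e ∈ A.filter (fun e => 0 ≤ e + n), ((cf q P e) ^ 2 + (cf q Q e) ^ 2) := by
    rw [Finset.sum_image hinj]
    refine Finset.sum_congr rfl fun e he => ?_
    have h3 := (Finset.mem_filter.mp he).2
    rw [← cf_eq hp, ← cf_eq hr, show (((e + n).toNat : ℕ) : ℤ) - n = e by omega, Complex.norm_real,
      Complex.norm_real, Real.norm_eq_abs, Real.norm_eq_abs, sq_abs, sq_abs]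
  rw [h1, ← h2]
  apply parseval_pair
  intro z hz
  have h3 := hM z hz
  rw [Polynomial.eval_mul, Polynomial.eval_mul, norm_mul, norm_mul]
  rw [ph] at h3
  linarith [h3, mul_pow ‖(q.map (algebraMap ℝ ℂ)).eval z‖ ‖(p.map (Int.castRingHom ℂ)).eval z‖ 2,
    mul_pow ‖(q.map (algebraMap ℝ ℂ)).eval z‖ ‖(r.map (Int.castRingHom ℂ)).eval z‖ 2]

/-- a common denominator -/
theorem exists_common (P Q : LZ) : ∃ (n : ℤ) (p r : Polynomial ℤ),
    Polynomial.toLaurent p = P * T n ∧ Polynomial.toLaurent r = Q * T n := by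
  obtain ⟨n, p, hp⟩ := P.exists_T_pow
  obtain ⟨m, r, hr⟩ := Q.exists_T_pow
  refine ⟨(n : ℤ) + m, p * Polynomial.X ^ m, r * Polynomial.X ^ n, ?_, ?_⟩
  · rw [map_mul, hp, T_add, Polynomial.toLaurent_X_pow]
    ring
  · rw [map_mul, hr, T_add, Polynomial.toLaurent_X_pow]
    ring

theorem bdS {P Q : LZ} (hP : P ≠ 0) {δ : ℝ} (hδ : 0 < δ) :
    BdS P Q ((1 + δ) * Real.exp (lp P Q)) := by
  obtain ⟨n, p, r, hp, hr⟩ := exists_common P Q
  have hp0 : p ≠ 0 := by
    rintro rfl
    rw [map_zero] at hp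
    have h1 : P * T n * T (-n) = 0 := by rw [← hp, zero_mul]
    rw [mul_assoc, ← T_add, add_neg_cancel, T_zero, mul_one] at h1
    exact hP h1
  obtain ⟨q, hq0, hq⟩ := exists_outer_pair hp0 r hδ
  have hlp : lp P Q = ∫ t : UnitAddCircle,
      Real.log (ph p r ((AddCircle.toCircle t : Circle) : ℂ)) := by
    rw [lp]
    congr 1
    funext t
    rw [ph, ← ez_toLaurent, ← ez_toLaurent, hp, hr, map_mul, map_mul, norm_mul, norm_mul, norm_ez_T,
      mul_one, mul_one]
  rw [hlp]
  exact ⟨q, hq0, fun A => bound_pair hp hr hq A⟩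

end Pool.Agent.NRG
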