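import Pool.Agent.NRC.L02Lim
import Pool.Agent.NRC.C03Rev
import Pool.Agent.NRG.G04Bd

/-!
# The limit of the heights of the specialised pairs
-/

open MvPolynomial LaurentPolynomial MeasureTheory Filter Topology Pool.Agent.H27Mahler
open Pool.Agent.SpCl Pool.Agent.NRC

namespace Pool.Agent.NRG

theorem ev_rev {σ : Type} [Fintype σ] {e : σ →₀ ℕ} {P : MvPolynomial σ ℤ}
    (he : ∀ s ∈ P.support, s ≤ e) (t : Tor σ) :
    ev t (rev e P) = mon t e * (starRingEnd ℂ) (ev t P) := by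
  classical
  rw [ev_eq_sum t P, map_sum, Finset.mul_sum, rev, map_sum]
  refine Finset.sum_congr rfl fun s hs => ?_
  have h2 : ev t (monomial (e - s) (coeff s P)) = ((coeff s P : ℤ) : ℂ) * mon t (e - s) := by
    by_cases h0 : coeff s P = 0
    · rw [h0]; simp
    · rw [ev_eq_sum, support_monomial, if_neg h0, Finset.sum_singleton, coeff_monomial, if_pos rfl]
  rw [h2, map_mul]
  have h3 : mon t e = mon t (e - s) * mon t s := by
    rw [← mon_add, tsub_add_cancel_of_le (he s hs)]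
  have h4 : mon t s * (starRingEnd ℂ) (mon t s) = 1 := by
    rw [Complex.mul_conj, Complex.normSq_eq_norm_sq, norm_mon]
    simp
  have h5 : (starRingEnd ℂ) ((coeff s P : ℤ) : ℂ) = ((coeff s P : ℤ) : ℂ) := by
    simp
  rw [h5, h3]
  calc ((coeff s P : ℤ) : ℂ) * mon t (e - s) = ((coeff s P : ℤ) : ℂ) * mon t (e - s) *
      (mon t s * (starRingEnd ℂ) (mon t s)) := by rw [h4, mul_one]
    _ = _ := by ring

/-- the polynomial `x^e (A A^ + B B^)`, `A^(x) = A(1/x)` -/
noncomputable def cc {σ : Type} [Fintype σ] (A B : MvPolynomial σ ℤ) : MvPolynomial σ ℤ :=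
  A * rev (degs A + degs B) A + B * rev (degs A + degs B) B

theorem le_left {σ : Type} [Fintype σ] (A B : MvPolynomial σ ℤ) :
    ∀ s ∈ A.support, s ≤ degs A + degs B := fun s hs => (le_degs s hs).trans le_self_add

theorem le_right {σ : Type} [Fintype σ] (A B : MvPolynomial σ ℤ) :
    ∀ s ∈ B.support, s ≤ degs A + degs B := fun s hs => (le_degs s hs).trans le_add_self

theorem norm_ev_cc {σ : Type} [Fintype σ] (A B : MvPolynomial σ ℤ) (t : Tor σ) :
    ‖ev t (cc A B)‖ = ‖ev t A‖ ^ 2 + ‖ev t B‖ ^ 2 := by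
  have h1 : ∀ w : ℂ, w * (starRingEnd ℂ) w = ((‖w‖ ^ 2 : ℝ) : ℂ) := fun w => by
    rw [Complex.mul_conj, Complex.normSq_eq_norm_sq]
  have h2 : ev t (cc A B) = mon t (degs A + degs B) *
      ((‖ev t A‖ ^ 2 + ‖ev t B‖ ^ 2 : ℝ) : ℂ) := by
    rw [cc, map_add, map_mul, map_mul, ev_rev (le_left A B), ev_rev (le_right A B)]
    push_cast
    have h3 := h1 (ev t A)
    have h4 := h1 (ev t B)
    push_cast at h3 h4
    rw [← h3, ← h4]
    ring
  rw [h2, norm_mul, norm_mon, one_mul, Complex.norm_real, Real.norm_eq_abs, abs_of_nonneg]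
  positivity

theorem mm_cc {σ : Type} [Fintype σ] (A B : MvPolynomial σ ℤ) : mm (cc A B) = LL A B := by
  rw [mm, LL]
  congr 1
  funext t
  rw [norm_ev_cc]

theorem cc_ne_zero {σ : Type} [Fintype σ] {A : MvPolynomial σ ℤ} (hA : A ≠ 0)
    (B : MvPolynomial σ ℤ) : cc A B ≠ 0 := by
  intro h
  obtain ⟨t, ht⟩ := (ae_ev_ne_zero hA).exists
  have h1 := norm_ev_cc A B t
  rw [h, map_zero, norm_zero] at h1
  have h2 : 0 < ‖ev t A‖ := norm_pos_iff.mpr ht
  have h3 := sq_nonneg ‖ev t B‖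
  nlinarith

theorem norm_ez_sp_cc {K : ℕ} (γ : Fin K → ℤ) (A B : MvPolynomial (Fin K) ℤ)
    (t : UnitAddCircle) :
    ‖ez t (sp γ (cc A B))‖ = ‖ez t (sp γ A)‖ ^ 2 + ‖ez t (sp γ B)‖ ^ 2 := by
  have h1 : ∀ w : ℂ, w * (starRingEnd ℂ) w = ((‖w‖ ^ 2 : ℝ) : ℂ) := fun w => by
    rw [Complex.mul_conj, Complex.normSq_eq_norm_sq]
  have h2 : ez t (sp γ (cc A B)) = ez t (T (wt γ (degs A + degs B))) *
      ((‖ez t (sp γ A)‖ ^ 2 + ‖ez t (sp γ B)‖ ^ 2 : ℝ) : ℂ) := by
    rw [cc, map_add, map_mul, map_mul, sp_rev _ (le_left A B), sp_rev _ (le_right A B), map_add,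
      map_mul, map_mul, map_mul, map_mul, ez_invert, ez_invert]
    push_cast
    have h3 := h1 (ez t (sp γ A))
    have h4 := h1 (ez t (sp γ B))
    push_cast at h3 h4
    rw [← h3, ← h4]
    ring
  rw [h2, norm_mul, norm_ez_T, one_mul, Complex.norm_real, Real.norm_eq_abs, abs_of_nonneg]
  positivity

theorem ml_sp_cc {K : ℕ} (γ : Fin K → ℤ) (A B : MvPolynomial (Fin K) ℤ) :
    ml (sp γ (cc A B)) = lp (sp γ A) (sp γ B) := by
  rw [ml, lp]
  congr 1
  funext t
  rw [norm_ez_sp_cc]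

/-- Boyd-Lawton for the height of a pair -/
theorem tendsto_lp {K : ℕ} {l : Filter ℕ} {γ : ℕ → Fin K → ℤ} (hγ : Free l γ)
    {A : MvPolynomial (Fin K) ℤ} (hA : A ≠ 0) (B : MvPolynomial (Fin K) ℤ) :
    Tendsto (fun n => lp (sp (γ n) A) (sp (γ n) B)) l (𝓝 (LL A B)) := by
  have h := tendsto_ml hγ (cc_ne_zero hA B)
  rw [mm_cc] at h
  exact h.congr fun n => ml_sp_cc (γ n) A B

theorem exists_bound_ez (P : LZ) : ∃ C : ℝ, ∀ t : UnitAddCircle, ‖ez t P‖ ≤ C := by
  obtain ⟨n, p, hp⟩ := exists_T_pow P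
  obtain ⟨C, hC⟩ := exists_bound_eval (p.map (Int.castRingHom ℂ))
  refine ⟨C, fun t => ?_⟩
  have h := hC t
  have h1 := ez_toLaurent t p
  rw [hp, map_mul] at h1
  have h2 : ‖ez t P‖ = ‖(p.map (Int.castRingHom ℂ)).eval ((AddCircle.toCircle t : Circle) : ℂ)‖ := by
    rw [← h1, norm_mul, norm_ez_T, mul_one]
  rw [h2]
  exact h

theorem measurable_ez (P : LZ) : Measurable fun t : UnitAddCircle => ez t P := by
  have hc := AddCircle.continuous_toCircle (T := (1:ℝ))
  have hc' : Continuous fun t : UnitAddCircle => ez t P := by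
    induction P using LaurentPolynomial.induction_on' with
    | add p q hp hq => simp only [map_add]; exact hp.add hq
    | C_mul_T n a =>
      simp only [map_mul, ez_T]
      refine Continuous.mul ?_ ?_
      · have : ∀ t : UnitAddCircle, ez t (LaurentPolynomial.C a) = (a : ℂ) := by
          intro t
          rw [ez, LaurentPolynomial.eval₂_C]
          rfl
        simp only [this]
        exact continuous_const
      · refine Continuous.zpow₀ (by fun_prop) n fun t => Or.inl (Circle.coe_ne_zero _)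
  exact hc'.measurable

theorem integrable_lp {P : LZ} (hP : P ≠ 0) (Q : LZ) :
    Integrable fun t : UnitAddCircle => Real.log (‖ez t P‖ ^ 2 + ‖ez t Q‖ ^ 2) := by
  obtain ⟨C, hC⟩ := exists_bound_ez P
  obtain ⟨C', hC'⟩ := exists_bound_ez Q
  refine integrable_log_sq_add (C := C ^ 2 + C' ^ 2) (measurable_ez P) (measurable_ez Q) ?_
    (integrable_log_ez P) (ae_ez_ne_zero hP)
  intro x
  have h1 := hC x
  have h2 := hC' x
  gcongr

theorem lp_mul {P Q W : LZ} (hP : P ≠ 0) (hW : W ≠ 0) :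
    lp (W * P) (W * Q) = 2 * ml W + lp P Q := by
  rw [lp, lp, ml, ← integral_const_mul, ← integral_add ((integrable_log_ez W).const_mul 2)
    (integrable_lp hP Q)]
  refine integral_congr_ae ?_
  filter_upwards [ae_ez_ne_zero hP, ae_ez_ne_zero hW] with t h1 h2
  have h1' : 0 < ‖ez t P‖ := norm_pos_iff.mpr h1
  have h2' : 0 < ‖ez t W‖ := norm_pos_iff.mpr h2
  have h3 : 2 * Real.log ‖ez t W‖ = Real.log (‖ez t W‖ ^ 2) := by rw [Real.log_pow]; norm_num
  rw [h3, ← Real.log_mul (by positivity) (by positivity), map_mul, map_mul, norm_mul, norm_mul]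
  congr 1
  ring

theorem two_ml_le_lp {P : LZ} (hP : P ≠ 0) (Q : LZ) : 2 * ml P ≤ lp P Q := by
  rw [ml, lp, ← integral_const_mul]
  refine integral_mono_ae ((integrable_log_ez P).const_mul 2) (integrable_lp hP Q) ?_
  filter_upwards [ae_ez_ne_zero hP] with t ht
  have h0 : 0 < ‖ez t P‖ := norm_pos_iff.mpr ht
  have : 2 * Real.log ‖ez t P‖ = Real.log (‖ez t P‖ ^ 2) := by rw [Real.log_pow]; norm_num
  show 2 * Real.log ‖ez t P‖ ≤ _
  rw [this]
  exact Real.log_le_log (by positivity) (by nlinarith [sq_nonneg ‖ez t Q‖])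

end Pool.Agent.NRG
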