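import Pool.Agent.NRC.U04ThmB
import Pool.Agent.NRC.C01Cop
import Pool.Agent.NRG.G05Lim

/-!
# Relatively prime pairs in one variable along an ultrafilter
-/

open MvPolynomial LaurentPolynomial MeasureTheory Filter Topology Pool.Agent.H27Mahler
open Pool.Agent.SpCl Pool.Agent.NRC

namespace Pool.Agent.NRG

/-- an upper bound for the generic pair from an eventual upper bound for the heights -/
theorem LL_le_of_lp {K : ℕ} {l : Filter ℕ} [l.NeBot] {γ : ℕ → Fin K → ℤ} (hγ : Free l γ)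
    {P Q : ℕ → LZ} (hP : ∀ᶠ n in l, P n ≠ 0) (hQ : ∀ᶠ n in l, Q n ≠ 0)
    {A B : MvPolynomial (Fin K) ℤ} (hA : A ≠ 0)
    (hB : B ≠ 0) (hAB : IsRelPrime A B) (hrel : ∀ᶠ n in l, sp (γ n) A * Q n = sp (γ n) B * P n)
    {c : ℝ} (hc : ∀ᶠ n in l, lp (P n) (Q n) ≤ c) : LL A B ≤ c := by
  refine le_of_forall_pos_le_add fun δ hδ => ?_
  have h1 : ∀ᶠ n in l, BdS (P n) (Q n) ((1 + δ) * Real.exp c) := by
    filter_upwards [hP, hc] with n hn1 hn2
    refine (bdS hn1 hδ).mono ?_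
    have := Real.exp_le_exp.mpr hn2
    gcongr
  have h2 := thmDS hγ hQ hA hB hAB hrel h1
  rw [Real.log_mul (by positivity) (Real.exp_pos _).ne', Real.log_exp] at h2
  have h3 := Real.log_le_sub_one_of_pos (show 0 < 1 + δ by positivity)
  linarith

theorem one_var (l : Ultrafilter ℕ) {P Q : ℕ → LZ} (hP : ∀ n, P n ≠ 0) (hQ : ∀ n, Q n ≠ 0)
    (hC : ∀ n, Cop (P n) (Q n)) {lam : ℝ}
    (hlam : Tendsto (fun n => lp (P n) (Q n)) (l : Filter ℕ) (𝓝 lam)) :
    ∃ (K : ℕ) (γ : ℕ → Fin K → ℤ) (A B : MvPolynomial (Fin K) ℤ), Free (l : Filter ℕ) γ ∧ A ≠ 0 ∧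
      B ≠ 0 ∧ IsRelPrime A B ∧ LL A B = lam ∧ ∃ W : ℕ → LZ,
        (∀ᶠ n in (l : Filter ℕ), W n ≠ 0 ∧ sp (γ n) A = W n * P n ∧ sp (γ n) B = W n * Q n) ∧
        Tendsto (fun n => ml (W n)) (l : Filter ℕ) (𝓝 0) := by
  classical
  have hb : ∀ᶠ n in (l : Filter ℕ), Bd (P n) (Q n) ((1 + 1) * Real.exp (lam + 1)) := by
    filter_upwards [hlam.eventually (gt_mem_nhds (lt_add_one lam))] with n hn
    refine ((bdS (hP n) one_pos).mono ?_).bd
    have := Real.exp_le_exp.mpr hn.le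
    gcongr
  obtain ⟨K, γ, A, B, hγ, hA, hB, hAB, hrel⟩ := thmB l hP hQ hb
  have hW : ∀ n, ∃ W : LZ, sp (γ n) A * Q n = sp (γ n) B * P n →
      sp (γ n) A = W * P n ∧ sp (γ n) B = W * Q n := by
    intro n
    by_cases h : sp (γ n) A * Q n = sp (γ n) B * P n
    · obtain ⟨W, hW⟩ := hC n _ _ h
      exact ⟨W, fun _ => hW⟩
    · exact ⟨0, fun h' => absurd h' h⟩
  choose W hW using hW
  have hW' : ∀ᶠ n in (l : Filter ℕ), W n ≠ 0 ∧ sp (γ n) A = W n * P n ∧
      sp (γ n) B = W n * Q n := by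
    filter_upwards [hrel, hγ.sp_ne_zero hA] with n hn1 hn2
    obtain ⟨h1, h2⟩ := hW n hn1
    refine ⟨?_, h1, h2⟩
    intro h0
    rw [h0, zero_mul] at h1
    exact hn2 h1
  have hlim := tendsto_lp hγ hA B
  have heq : ∀ᶠ n in (l : Filter ℕ), lp (sp (γ n) A) (sp (γ n) B) =
      2 * ml (W n) + lp (P n) (Q n) := by
    filter_upwards [hW'] with n hn
    rw [hn.2.1, hn.2.2, lp_mul (hP n) hn.1]
  have hle : LL A B ≤ lam := by
    refine le_of_forall_pos_le_add fun δ hδ => ?_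
    refine LL_le_of_lp hγ (Eventually.of_forall hP) (Eventually.of_forall hQ) hA hB hAB hrel ?_
    filter_upwards [hlam.eventually (gt_mem_nhds (show lam < lam + δ by linarith))] with n hn
    exact hn.le
  have hge : lam ≤ LL A B := by
    refine le_of_tendsto_of_tendsto hlam hlim ?_
    filter_upwards [heq] with n hn
    rw [hn]
    have := ml_nonneg (W n)
    linarith
  refine ⟨K, γ, A, B, hγ, hA, hB, hAB, le_antisymm hle hge, W, hW', ?_⟩
  have h1 : Tendsto (fun n => (lp (sp (γ n) A) (sp (γ n) B) - lp (P n) (Q n)) / 2)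
      (l : Filter ℕ) (𝓝 ((LL A B - lam) / 2)) := (hlim.sub hlam).div_const 2
  rw [le_antisymm hle hge, sub_self, zero_div] at h1
  refine h1.congr' ?_
  filter_upwards [heq] with n hn
  rw [hn]
  ring

end Pool.Agent.NRG
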