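import Pool.Agent.NRC.C06Appr
import Pool.Agent.NRG.G06One

/-!
# Approximation of a relatively prime pair by pairs in one variable
-/

open MvPolynomial LaurentPolynomial MeasureTheory Filter Topology Pool.Agent.H27Mahler
open Pool.Agent.SpCl Pool.Agent.NRC

namespace Pool.Agent.NRG

/-- the measure of the greatest common divisor of the specialisations tends to one -/
theorem tendsto_gcd {k : ℕ} {l : Filter ℕ} {F Q : MvPolynomial (Fin k) ℤ} (hF : F ≠ 0) (hQ : Q ≠ 0)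
    (hFQ : IsRelPrime F Q) {r : ℕ → Fin k → ℤ} (hr : Free l r) {W P R : ℕ → LZ}
    (h : ∀ᶠ n in l, P n ≠ 0 ∧ R n ≠ 0 ∧ W n ≠ 0 ∧ sp (r n) F = W n * P n ∧
      sp (r n) Q = W n * R n) : Tendsto (fun n => ml (W n)) l (𝓝 0) := by
  have hlim := tendsto_lp hr hF Q
  rw [Metric.tendsto_nhds]
  intro δ hδ
  by_contra hcon
  rw [Filter.not_eventually] at hcon
  have hfr : ∃ᶠ n in l, n ∈ {n : ℕ | δ ≤ ml (W n)} := by
    refine hcon.mono fun n hn => ?_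
    rw [Real.dist_eq, sub_zero, abs_of_nonneg (ml_nonneg _), not_lt] at hn
    exact hn
  have hne : (l ⊓ 𝓟 {n : ℕ | δ ≤ ml (W n)}).NeBot := Filter.frequently_mem_iff_neBot.mp hfr
  have hle : l ⊓ 𝓟 {n : ℕ | δ ≤ ml (W n)} ≤ l := inf_le_left
  have hmem : ∀ᶠ n in l ⊓ 𝓟 {n : ℕ | δ ≤ ml (W n)}, δ ≤ ml (W n) :=
    Filter.Eventually.filter_mono inf_le_right (Filter.eventually_principal.mpr fun n hn => hn)
  have h' := h.filter_mono hle
  have hc : ∀ᶠ n in l ⊓ 𝓟 {n : ℕ | δ ≤ ml (W n)}, lp (P n) (R n) ≤ LL F Q - δ := by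
    filter_upwards [h', hmem, (hlim.mono_left hle).eventually
      (gt_mem_nhds (show LL F Q < LL F Q + δ by linarith))] with n hn1 hn2 hn3
    obtain ⟨hP, hR, hW, e1, e2⟩ := hn1
    have hn3' : lp (sp (r n) F) (sp (r n) Q) < LL F Q + δ := hn3
    rw [e1, e2, lp_mul hP hW] at hn3'
    linarith
  have h2 := LL_le_of_lp (l := l ⊓ 𝓟 {n : ℕ | δ ≤ ml (W n)}) (fun t ht => (hr t ht).filter_mono hle)
    (h'.mono fun n hn => hn.1) (h'.mono fun n hn => hn.2.1) hF hQ hFQ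
    (h'.mono fun n hn => by rw [hn.2.2.2.1, hn.2.2.2.2]; ring) hc
  linarith

/-- approximation by relatively prime pairs in one variable -/
theorem approx {k : ℕ} {F Q : MvPolynomial (Fin k) ℤ} (hF : F ≠ 0) (hQ : Q ≠ 0)
    (hFQ : IsRelPrime F Q) {δ : ℝ} (hδ : 0 < δ) :
    ∃ P R : LZ, P ≠ 0 ∧ R ≠ 0 ∧ Cop P R ∧ |ml P - mm F| < δ ∧ |ml R - mm Q| < δ ∧
      |lp P R - LL F Q| < δ ∧ (mm F ≠ 0 → ml P ≠ 0) := by
  classical
  obtain ⟨r, hr⟩ := exists_free k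
  have hex : ∀ n, ∃ W P R : LZ, sp (r n) F ≠ 0 → sp (r n) Q ≠ 0 → P ≠ 0 ∧ R ≠ 0 ∧ W ≠ 0 ∧
      sp (r n) F = W * P ∧ sp (r n) Q = W * R ∧ Cop P R := by
    intro n
    by_cases h1 : sp (r n) F = 0
    · exact ⟨0, 0, 0, fun h => absurd h1 h⟩
    by_cases h2 : sp (r n) Q = 0
    · exact ⟨0, 0, 0, fun _ h => absurd h2 h⟩
    obtain ⟨W, P, R, hW, hP, hR, e1, e2, hC⟩ := exists_cop h1 h2
    exact ⟨W, P, R, fun _ _ => ⟨hP, hR, hW, e1, e2, hC⟩⟩
  choose W P R hWPR using hex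
  have hev : ∀ᶠ n in atTop, P n ≠ 0 ∧ R n ≠ 0 ∧ W n ≠ 0 ∧ sp (r n) F = W n * P n ∧
      sp (r n) Q = W n * R n ∧ Cop (P n) (R n) := by
    filter_upwards [hr.sp_ne_zero hF, hr.sp_ne_zero hQ] with n h1 h2
    exact hWPR n h1 h2
  have hW0 : Tendsto (fun n => ml (W n)) atTop (𝓝 0) :=
    tendsto_gcd hF hQ hFQ hr (hev.mono fun n hn => ⟨hn.1, hn.2.1, hn.2.2.1, hn.2.2.2.1, hn.2.2.2.2.1⟩)
  have hPl : Tendsto (fun n => ml (P n)) atTop (𝓝 (mm F)) := by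
    have h1 := (tendsto_ml hr hF).sub hW0
    rw [sub_zero] at h1
    refine h1.congr' ?_
    filter_upwards [hev] with n hn
    obtain ⟨hP, hR, hW, e1, e2, hC⟩ := hn
    rw [e1, ml_mul hW hP]
    ring
  have hRl : Tendsto (fun n => ml (R n)) atTop (𝓝 (mm Q)) := by
    have h1 := (tendsto_ml hr hQ).sub hW0
    rw [sub_zero] at h1
    refine h1.congr' ?_
    filter_upwards [hev] with n hn
    obtain ⟨hP, hR, hW, e1, e2, hC⟩ := hn
    rw [e2, ml_mul hW hR]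
    ring
  have hLl : Tendsto (fun n => lp (P n) (R n)) atTop (𝓝 (LL F Q)) := by
    have h1 := (tendsto_lp hr hF Q).sub (hW0.const_mul 2)
    rw [mul_zero, sub_zero] at h1
    refine h1.congr' ?_
    filter_upwards [hev] with n hn
    obtain ⟨hP, hR, hW, e1, e2, hC⟩ := hn
    rw [e1, e2, lp_mul hP hW]
    ring
  have hnz : ∀ᶠ n in atTop, mm F ≠ 0 → ml (P n) ≠ 0 := by
    by_cases h0 : mm F = 0
    · exact Eventually.of_forall fun n h => absurd h0 h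
    · filter_upwards [hPl.eventually_ne h0] with n hn _
      exact hn
  obtain ⟨n, ⟨⟨⟨h1, h2⟩, h3⟩, h4⟩, h5⟩ := ((((hev.and (Metric.tendsto_nhds.mp hPl δ hδ)).and
    (Metric.tendsto_nhds.mp hRl δ hδ)).and (Metric.tendsto_nhds.mp hLl δ hδ)).and hnz).exists
  exact ⟨P n, R n, h1.1, h1.2.1, h1.2.2.2.2.2, h2, h3, h4, h5⟩

end Pool.Agent.NRG
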