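import Pool.Agent.SpCl.A15Gap
import Pool.Agent.NRG.G07Appr

/-!
# Limits of relatively prime pairs, and the gap
-/

open MvPolynomial LaurentPolynomial MeasureTheory Filter Topology Pool.Agent.H27Mahler
open Pool.Agent.SpCl Pool.Agent.NRC

namespace Pool.Agent.NRG

section aux

/-- shift which makes all weights non-negative -/
private def g8sh {K m : ℕ} (g : Fin K → ℤ) (s : Fin m → (Fin K →₀ ℕ)) : ℤ := ∑ i, |wt g (s i)|

private theorem g8sh_le {K m : ℕ} (g : Fin K → ℤ) (s : Fin m → (Fin K →₀ ℕ)) (i : Fin m) :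
    0 ≤ wt g (s i) + g8sh g s := by
  have h1 : |wt g (s i)| ≤ g8sh g s :=
    Finset.single_le_sum (f := fun i => |wt g (s i)|) (fun _ _ => abs_nonneg _) (Finset.mem_univ i)
  have h2 := neg_abs_le (wt g (s i))
  linarith

private noncomputable def g8ex {K m : ℕ} (g : Fin K → ℤ) (s : Fin m → (Fin K →₀ ℕ)) (i : Fin m) :
    Unit →₀ ℕ := Finsupp.single () (wt g (s i) + g8sh g s).toNat

private theorem g8ex_apply {K m : ℕ} (g : Fin K → ℤ) (s : Fin m → (Fin K →₀ ℕ)) (i : Fin m) :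
    ((g8ex g s i () : ℕ) : ℤ) = wt g (s i) + g8sh g s := by
  rw [g8ex, Finsupp.single_eq_same, Int.toNat_of_nonneg (g8sh_le g s i)]

private theorem g8ez_C (t : UnitAddCircle) (c : ℤ) : ez t (LaurentPolynomial.C c) = (c : ℂ) := by
  rw [ez, LaurentPolynomial.eval₂_C]
  simp

private theorem g8ez_sp {K m : ℕ} (g : Fin K → ℤ) (a : Fin m → ℤ) (s : Fin m → (Fin K →₀ ℕ))
    (t : UnitAddCircle) : ez t (sp g (pl a s)) =
      ∑ i, (a i : ℂ) * ((AddCircle.toCircle t : Circle) : ℂ) ^ (wt g (s i)) := by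
  rw [pl, map_sum, map_sum]
  refine Finset.sum_congr rfl fun i _ => ?_
  rw [sp_monomial, map_mul, g8ez_C, ez_T]

private theorem g8norm {K m : ℕ} (g : Fin K → ℤ) (a : Fin m → ℤ) (s : Fin m → (Fin K →₀ ℕ))
    (t : Tor Unit) : ‖ev t (pl a (g8ex g s))‖ = ‖ez (t ()) (sp g (pl a s))‖ := by
  have hz : ((AddCircle.toCircle (t ()) : Circle) : ℂ) ≠ 0 := Circle.coe_ne_zero _
  have h1 : ev t (pl a (g8ex g s)) = ez (t ()) (sp g (pl a s)) *
      ((AddCircle.toCircle (t ()) : Circle) : ℂ) ^ (g8sh g s) := by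
    rw [ev_pl, g8ez_sp, Finset.sum_mul]
    refine Finset.sum_congr rfl fun i _ => ?_
    have h2 : mon t (g8ex g s i) =
        ((AddCircle.toCircle (t ()) : Circle) : ℂ) ^ (wt g (s i) + g8sh g s) := by
      rw [← g8ex_apply, zpow_natCast, mon]
      simp
    rw [h2, zpow_add₀ hz, mul_assoc]
  rw [h1, norm_mul, norm_zpow, Circle.norm_coe, one_zpow, mul_one]

private theorem g8mm {K m : ℕ} (g : Fin K → ℤ) (a : Fin m → ℤ) (s : Fin m → (Fin K →₀ ℕ)) :
    mm (pl a (g8ex g s)) = ml (sp g (pl a s)) := by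
  rw [mm, ml]
  simp_rw [g8norm]
  exact (volume_preserving_funUnique Unit UnitAddCircle).integral_comp'
    (fun x => Real.log ‖ez x (sp g (pl a s))‖)

end aux

/-- the specialisation as a polynomial in one variable -/
theorem exists_one {K : ℕ} (g : Fin K → ℤ) (A : MvPolynomial (Fin K) ℤ) (hA : sp g A ≠ 0) :
    ∃ F : MvPolynomial Unit ℤ, F ≠ 0 ∧ F.support.card ≤ A.support.card ∧ mm F = ml (sp g A) := by
  classical
  obtain ⟨a, s, hs, ha, hAe⟩ := exists_pl A
  refine ⟨pl a (g8ex g s), ?_, ?_, ?_⟩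
  · intro h0
    apply hA
    apply eq_of_ez
    intro t
    have h1 := g8norm g a s (fun _ => t)
    rw [h0, map_zero, norm_zero] at h1
    have h2 : sp g A = sp g (pl a s) := congrArg (sp g) hAe
    rw [h2, map_zero]
    exact norm_eq_zero.mp h1.symm
  · have h1 : (pl a (g8ex g s)).support ⊆ Finset.univ.image (g8ex g s) := by
      intro d hd
      rw [mem_support_iff] at hd
      rw [Finset.mem_image]
      by_contra hcon
      push Not at hcon
      exact hd (coeff_pl_of_notMem fun i => hcon i (Finset.mem_univ i))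
    refine (Finset.card_le_card h1).trans (Finset.card_image_le.trans ?_)
    simp
  · rw [g8mm]
    exact congrArg (fun B => ml (sp g B)) hAe.symm

/-- if the generic polynomial has measure one then so have almost all specialisations -/
theorem ml_sp_eq_zero {K : ℕ} {l : Filter ℕ} {γ : ℕ → Fin K → ℤ} (hγ : Free l γ)
    {A : MvPolynomial (Fin K) ℤ} (hA : A ≠ 0) (h0 : mm A = 0) :
    ∀ᶠ n in l, ml (sp (γ n) A) = 0 := by
  obtain ⟨c, hc, hgap⟩ := gap A.support.card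
  have h1 := tendsto_ml hγ hA
  rw [h0] at h1
  filter_upwards [h1.eventually (gt_mem_nhds hc), hγ.sp_ne_zero hA] with n hn hn2
  obtain ⟨F, hF, hcard, hmm⟩ := exists_one (γ n) A hn2
  rcases hgap Unit F hF hcard with h | h
  · rw [← hmm, h]
  · rw [hmm] at h
    exact absurd hn (not_lt.mpr h)

/-- limits of relatively prime pairs -/
theorem limit_pair (l : Ultrafilter ℕ) (hl : (l : Filter ℕ) ≤ atTop) {k : ℕ → ℕ}
    (F Q : ∀ n, MvPolynomial (Fin (k n)) ℤ) (hF : ∀ n, F n ≠ 0) (hQ : ∀ n, Q n ≠ 0)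
    (hFQ : ∀ n, IsRelPrime (F n) (Q n)) {x y lam : ℝ}
    (hx : Tendsto (fun n => mm (F n)) (l : Filter ℕ) (𝓝 x))
    (hy : Tendsto (fun n => mm (Q n)) (l : Filter ℕ) (𝓝 y))
    (hlam : Tendsto (fun n => LL (F n) (Q n)) (l : Filter ℕ) (𝓝 lam)) :
    (∃ (K : ℕ) (A B : MvPolynomial (Fin K) ℤ), A ≠ 0 ∧ B ≠ 0 ∧ IsRelPrime A B ∧ mm A = x ∧
      mm B = y ∧ LL A B = lam) ∧ (x = 0 → ∀ᶠ n in (l : Filter ℕ), mm (F n) = 0) := by
  have hδ : ∀ n : ℕ, (0 : ℝ) < 1 / ((n : ℝ) + 1) := fun n => by positivity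
  have hδ0 : Tendsto (fun n : ℕ => 1 / ((n : ℝ) + 1)) (l : Filter ℕ) (𝓝 0) :=
    tendsto_one_div_add_atTop_nhds_zero_nat.mono_left hl
  choose P R hP hR hC hPF hRQ hLL hne using fun n => approx (hF n) (hQ n) (hFQ n) (hδ n)
  have hlim : ∀ {u v : ℕ → ℝ} {z : ℝ}, Tendsto v (l : Filter ℕ) (𝓝 z) →
      (∀ n, |u n - v n| < 1 / ((n : ℝ) + 1)) → Tendsto u (l : Filter ℕ) (𝓝 z) := by
    intro u v z hv huv
    have h1 : Tendsto (fun n => u n - v n) (l : Filter ℕ) (𝓝 0) :=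
      squeeze_zero_norm (fun n => (huv n).le) hδ0
    have h2 := h1.add hv
    rw [zero_add] at h2
    refine h2.congr fun n => ?_
    ring
  have hx' : Tendsto (fun n => ml (P n)) (l : Filter ℕ) (𝓝 x) := hlim hx hPF
  have hy' : Tendsto (fun n => ml (R n)) (l : Filter ℕ) (𝓝 y) := hlim hy hRQ
  have hlam' : Tendsto (fun n => lp (P n) (R n)) (l : Filter ℕ) (𝓝 lam) := hlim hlam hLL
  obtain ⟨K, γ, A, B, hγ, hA, hB, hAB, hlamA, W, hW, hW0⟩ := one_var l hP hR hC hlam'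
  have hmA : mm A = x := by
    have h1 := hW0.add hx'
    rw [zero_add] at h1
    refine tendsto_nhds_unique ((tendsto_ml hγ hA).congr' ?_) h1
    filter_upwards [hW] with n hn
    rw [hn.2.1, ml_mul hn.1 (hP n)]
  have hmB : mm B = y := by
    have h1 := hW0.add hy'
    rw [zero_add] at h1
    refine tendsto_nhds_unique ((tendsto_ml hγ hB).congr' ?_) h1
    filter_upwards [hW] with n hn
    rw [hn.2.2, ml_mul hn.1 (hR n)]
  refine ⟨⟨K, A, B, hA, hB, hAB, hmA, hmB, hlamA⟩, fun hx0 => ?_⟩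
  rw [hx0] at hmA
  filter_upwards [ml_sp_eq_zero hγ hA hmA, hW] with n h1 h2
  rw [h2.2.1, ml_mul h2.1 (hP n)] at h1
  by_contra h3
  have h4 := hne n h3
  have h5 := ml_nonneg (W n)
  have h6 := ml_nonneg (P n)
  exact h4 (by linarith)

end Pool.Agent.NRG
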