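import Pool.Agent.H27Mahler.Sparse
import Pool.Agent.NRG.G08Seq

/-!
# The set of measures of polynomials with a partner of bounded height
-/

open MvPolynomial MeasureTheory Filter Topology Pool.Agent.H27Mahler
open Pool.Agent.SpCl Pool.Agent.NRC

namespace Pool.Agent.NRG

/-- `F` has a relatively prime partner `Q` with `∫ log (|F|² + |Q|²) ≤ c` -/
def Part {σ : Type} [Fintype σ] (c : ℝ) (F : MvPolynomial σ ℤ) : Prop :=
  F ≠ 0 ∧ ∃ Q : MvPolynomial σ ℤ, Q ≠ 0 ∧ IsRelPrime F Q ∧ LL F Q ≤ c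

/-- the values -/
def SS (c : ℝ) : Set ℝ := {v | ∃ (k : ℕ) (F : MvPolynomial (Fin k) ℤ), Part c F ∧ mm F = v}

theorem Part.mono {σ : Type} [Fintype σ] {c c' : ℝ} {F : MvPolynomial σ ℤ} (h : Part c F)
    (hc : c ≤ c') : Part c' F := by
  obtain ⟨h0, Q, hQ, h1, h2⟩ := h
  exact ⟨h0, Q, hQ, h1, h2.trans hc⟩

theorem LL_comm {σ : Type} [Fintype σ] (A B : MvPolynomial σ ℤ) : LL A B = LL B A := by
  rw [LL, LL]
  congr 1
  funext t
  rw [add_comm]

theorem SS_nonneg {c v : ℝ} (h : v ∈ SS c) : 0 ≤ v := by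
  obtain ⟨k, F, -, rfl⟩ := h
  exact mm_nonneg F

/-- common limit along an ultrafilter -/
theorem limit_of_SS (c : ℝ) (v : ℕ → ℝ) (hv : ∀ n, v n ∈ SS c) {x : ℝ}
    (hx : Tendsto v atTop (𝓝 x)) : x ∈ SS c ∧ (x = 0 → ∃ n, v n = 0) := by
  choose k F hP hm using hv
  have hF : ∀ n, F n ≠ 0 := fun n => (hP n).1
  choose Q hQ hFQ hL using fun n => (hP n).2
  set l : Ultrafilter ℕ := Ultrafilter.of atTop with hl
  have hle : (l : Filter ℕ) ≤ atTop := Ultrafilter.of_le atTop
  have hQb : ∀ n, mm (Q n) ∈ Set.Icc (0 : ℝ) (c / 2) := by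
    intro n
    refine ⟨mm_nonneg _, ?_⟩
    have h1 := two_mm_le_LL (hQ n) (F n)
    rw [LL_comm] at h1
    have := hL n
    linarith
  have hLb : ∀ n, LL (F n) (Q n) ∈ Set.Icc (0 : ℝ) c := fun n => ⟨LL_nonneg (hF n) _, hL n⟩
  obtain ⟨y, hy1, hy⟩ := isCompact_Icc.ultrafilter_le_nhds (l.map fun n => mm (Q n))
    (by
      rw [Filter.le_principal_iff, Ultrafilter.mem_coe, Ultrafilter.mem_map]
      exact Filter.mem_of_superset Filter.univ_mem fun n _ => hQb n)
  obtain ⟨lam, hlam1, hlam⟩ := isCompact_Icc.ultrafilter_le_nhds (l.map fun n => LL (F n) (Q n))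
    (by
      rw [Filter.le_principal_iff, Ultrafilter.mem_coe, Ultrafilter.mem_map]
      exact Filter.mem_of_superset Filter.univ_mem fun n _ => hLb n)
  have hxm : Tendsto (fun n => mm (F n)) (l : Filter ℕ) (𝓝 x) :=
    (hx.mono_left hle).congr fun n => (hm n).symm
  obtain ⟨⟨K, A, B, hA, hB, hAB, hAx, -, hABl⟩, h2⟩ :=
    limit_pair l hle F Q hF hQ hFQ hxm hy hlam
  refine ⟨⟨K, A, ⟨hA, B, hB, hAB, hABl.trans_le hlam1.2⟩, hAx⟩, fun hx0 => ?_⟩
  obtain ⟨n, hn⟩ := (h2 hx0).exists
  exact ⟨n, by rw [← hm n, hn]⟩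

theorem isClosed_SS (c : ℝ) : IsClosed (SS c) := by
  rw [← isSeqClosed_iff_isClosed]
  intro v x hv hx
  exact (limit_of_SS c v hv hx).1

theorem gap_SS (c : ℝ) : ∃ ε : ℝ, 0 < ε ∧ ∀ v ∈ SS c, v = 0 ∨ ε ≤ v := by
  by_contra hcon
  push Not at hcon
  have h1 : ∀ n : ℕ, ∃ v ∈ SS c, v ≠ 0 ∧ v < 1 / ((n : ℝ) + 1) := fun n =>
    hcon _ (by positivity)
  choose v hv hne hlt using h1
  have h2 : Tendsto v atTop (𝓝 0) := by
    refine squeeze_zero (fun n => SS_nonneg (hv n)) (fun n => (hlt n).le)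
      tendsto_one_div_add_atTop_nhds_zero_nat
  obtain ⟨n, hn⟩ := (limit_of_SS c v hv h2).2 rfl
  exact hne n hn

/-- the sums of elements of a closed set of non-negative numbers with a gap form a closed set -/
theorem isClosed_sums {S : Set ℝ} (hS : IsClosed S) (h0 : ∀ v ∈ S, 0 ≤ v) {ε : ℝ} (hε : 0 < ε)
    (hgap : ∀ v ∈ S, v = 0 ∨ ε ≤ v) :
    IsClosed {x : ℝ | ∃ s : Multiset ℝ, (∀ v ∈ s, v ∈ S) ∧ s.sum = x} := by
  classical
  rw [← isSeqClosed_iff_isClosed]
  intro u x hu hx
  -- all large terms are at most `X`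
  set X : ℝ := x + 1 with hX
  have hev : ∀ᶠ n in atTop, u n ≤ X := by
    filter_upwards [hx.eventually (gt_mem_nhds (lt_add_one x))] with n hn
    exact hn.le
  obtain ⟨m, hm⟩ := exists_nat_ge (X / ε)
  -- the compact set of the sums of `m` elements
  set C : Set ℝ := insert 0 (S ∩ Set.Icc 0 X) with hC
  have hCc : IsCompact C := (isCompact_Icc.inter_left hS).insert 0
  set D : Set ℝ := (fun f : Fin m → ℝ => ∑ i, f i) '' (Set.pi Set.univ fun _ => C) with hD
  have hDc : IsCompact D :=
    (isCompact_univ_pi fun _ => hCc).image (continuous_finsetSum _ fun i _ => continuous_apply i)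
  have hmem : ∀ᶠ n in atTop, u n ∈ D := by
    filter_upwards [hev] with n hn
    obtain ⟨s, hs, hsum⟩ := hu n
    set s1 := s.filter fun v => v ≠ 0 with hs1
    have hs1S : ∀ v ∈ s1, v ∈ S ∧ ε ≤ v := by
      intro v hv
      obtain ⟨h1, h2⟩ := Multiset.mem_filter.mp hv
      exact ⟨hs v h1, (hgap v (hs v h1)).resolve_left h2⟩
    have hsum1 : s1.sum = u n := by
      rw [← hsum]
      have h1 : (s.filter fun v => ¬ v ≠ 0).sum = 0 := by
        refine Multiset.sum_eq_zero fun v hv => ?_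
        have := (Multiset.mem_filter.mp hv).2
        push Not at this
        exact this
      conv_rhs => rw [← Multiset.filter_add_not (fun v => v ≠ 0) s]
      rw [Multiset.sum_add, h1, add_zero]
    have hle : ∀ v ∈ s1, v ≤ X := by
      intro v hv
      refine (Multiset.single_le_sum (fun w hw => h0 w (hs1S w hw).1) v hv).trans ?_
      rw [hsum1]
      exact hn
    have hcard : Multiset.card s1 ≤ m := by
      have h1 : (Multiset.card s1 : ℝ) * ε ≤ s1.sum := by
        have := Multiset.card_nsmul_le_sum (s := s1) (a := ε) fun v hv => (hs1S v hv).2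
        rwa [nsmul_eq_mul] at this
      have h2 : (Multiset.card s1 : ℝ) ≤ X / ε := by
        rw [le_div_iff₀ hε]
        exact h1.trans (hsum1.trans_le hn)
      exact_mod_cast h2.trans hm
    obtain ⟨L, hL⟩ : ∃ L : List ℝ, (L : Multiset ℝ) = s1 := ⟨s1.toList, Multiset.coe_toList s1⟩
    have hlen : L.length ≤ m := by
      rw [← hL, Multiset.coe_card] at hcard
      exact hcard
    refine ⟨fun i => L.getD i 0, ?_, ?_⟩
    · intro i _
      by_cases hi : (i : ℕ) < L.length
      · have h1 : L.getD i 0 ∈ s1 := by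
          rw [List.getD_eq_getElem _ _ hi, ← hL]
          exact List.getElem_mem hi
        exact Set.mem_insert_of_mem _ ⟨(hs1S _ h1).1, h0 _ (hs1S _ h1).1, hle _ h1⟩
      · have : L.getD i 0 = 0 := List.getD_eq_default _ _ (not_lt.mp hi)
        show L.getD (i : ℕ) 0 ∈ C
        rw [this]
        exact Set.mem_insert _ _
    · have h1 : s1.sum = L.sum := by rw [← hL, Multiset.sum_coe]
      have h2 : ∑ i : Fin m, L.getD i 0 = L.sum := by
        have h3 : ∑ i : Fin m, L.getD (i : ℕ) 0 = ∑ i ∈ Finset.range m, L.getD i 0 :=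
          Fin.sum_univ_eq_sum_range (fun i => L.getD i 0) m
        rw [h3]
        have h4 : ∑ i ∈ Finset.range m, L.getD i 0 = ∑ i ∈ Finset.range L.length, L.getD i 0 := by
          symm
          refine Finset.sum_subset (Finset.range_mono hlen) fun i _ hi => ?_
          rw [Finset.mem_range, not_lt] at hi
          exact List.getD_eq_default _ _ hi
        rw [h4]
        clear h3 h4 hlen h1 hL
        induction L using List.reverseRecOn with
        | nil => simp
        | append_singleton L a ih =>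
          rw [List.length_append, List.length_singleton, Finset.sum_range_succ, List.sum_append,
            List.sum_singleton]
          congr 1
          · rw [← ih]
            refine Finset.sum_congr rfl fun i hi => ?_
            rw [Finset.mem_range] at hi
            exact List.getD_append _ _ _ _ hi
          · rw [List.getD_append_right _ _ _ _ le_rfl]
            simp
      show ∑ i : Fin m, L.getD i 0 = u n
      rw [h2, ← h1, hsum1]
  have hxD : x ∈ D := hDc.isClosed.mem_of_tendsto hx hmem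
  obtain ⟨f, hf, hfx⟩ := hxD
  refine ⟨(Finset.univ.filter fun i => f i ≠ 0).val.map f, ?_, ?_⟩
  · intro v hv
    obtain ⟨i, hi, rfl⟩ := Multiset.mem_map.mp hv
    have h1 : f i ≠ 0 := (Finset.mem_filter.mp (Finset.mem_def.mpr hi)).2
    rcases hf i (Set.mem_univ i) with h2 | h2
    · exact absurd h2 h1
    · exact h2.1
  · change ∑ i ∈ Finset.univ.filter (fun i => f i ≠ 0), f i = x
    rw [Finset.sum_filter_ne_zero]
    exact hfx

end Pool.Agent.NRG
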