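import Pool.Agent.NRC.C05Orient
import Pool.Agent.NRG.G09Set

/-!
# Polynomials with a partner of bounded height: renaming, classes, products
-/

open MvPolynomial MeasureTheory Filter Topology Pool.Agent.H27Mahler
open Pool.Agent.SpCl Pool.Agent.NRC

namespace Pool.Agent.NRG

theorem isRelPrime_rename {σ τ : Type} {f : σ → τ} (hf : Function.Injective f)
    {F Q : MvPolynomial σ ℤ} (hF : F ≠ 0) (h : IsRelPrime F Q) :
    IsRelPrime (rename f F) (rename f Q) := by
  classical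
  intro D hDF hDQ
  have hF' : rename f F ≠ 0 := by
    rw [Ne, ← map_zero (rename f), (rename_injective _ hf).eq_iff]
    exact hF
  obtain ⟨G, hG⟩ := hDF
  have hD0 : D ≠ 0 := by
    rintro rfl
    rw [zero_mul] at hG
    exact hF' hG
  have hG0 : G ≠ 0 := by
    rintro rfl
    rw [mul_zero] at hG
    exact hF' hG
  have hvars : (D.vars : Set τ) ⊆ Set.range f := by
    intro j hj
    have h1 : D.degreeOf j ≠ 0 := mem_vars_iff_degreeOf_ne_zero.mp hj
    have h2 : (rename f F).degreeOf j ≠ 0 := by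
      rw [hG, degreeOf_mul_eq hD0 hG0]
      omega
    have h3 := vars_rename f F (mem_vars_iff_degreeOf_ne_zero.mpr h2)
    obtain ⟨i, -, hi⟩ := Finset.mem_image.mp h3
    exact ⟨i, hi⟩
  obtain ⟨D', rfl⟩ := exists_rename_eq_of_vars_subset_range D f hf hvars
  have hdvd : ∀ E : MvPolynomial σ ℤ, rename f D' ∣ rename f E → D' ∣ E := by
    rintro E ⟨W, hW⟩
    refine ⟨killCompl hf W, ?_⟩
    have h1 := congrArg (killCompl hf) hW
    rwa [map_mul, killCompl_rename_app, killCompl_rename_app] at h1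
  have hu : IsUnit D' := h (hdvd F ⟨G, hG⟩) (hdvd Q hDQ)
  exact hu.map (rename f)

theorem LL_rename {σ τ : Type} [Fintype σ] [Fintype τ] {f : σ → τ} (hf : Function.Injective f)
    (A B : MvPolynomial σ ℤ) : LL (rename f A) (rename f B) = LL A B := by
  classical
  rw [LL, LL]
  simp_rw [ev_rename]
  refine integral_comp_surj (resHom f) ?_ ?_
    (fun t => Real.log (‖ev t A‖ ^ 2 + ‖ev t B‖ ^ 2)) ?_
  · exact continuous_pi fun i => continuous_apply _
  · intro t
    refine ⟨fun j => if h : ∃ i, f i = j then t h.choose else 0, ?_⟩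
    funext i
    show (if h : ∃ i', f i' = f i then t h.choose else 0) = t i
    rw [dif_pos ⟨i, rfl⟩]
    congr 1
    exact hf (Exists.choose_spec (⟨i, rfl⟩ : ∃ i', f i' = f i))
  · exact Real.measurable_log.comp (((continuous_ev A).norm.measurable.pow_const 2).add
      ((continuous_ev B).norm.measurable.pow_const 2))

theorem Part.rename {σ τ : Type} [Fintype σ] [Fintype τ] {f : σ → τ} (hf : Function.Injective f)
    {c : ℝ} {F : MvPolynomial σ ℤ} (h : Part c F) : Part c (MvPolynomial.rename f F) := by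
  obtain ⟨h0, Q, hQ, h1, h2⟩ := h
  have hne : ∀ E : MvPolynomial σ ℤ, E ≠ 0 → MvPolynomial.rename f E ≠ 0 := by
    intro E hE
    rw [Ne, ← map_zero (MvPolynomial.rename f), (rename_injective _ hf).eq_iff]
    exact hE
  exact ⟨hne F h0, MvPolynomial.rename f Q, hne Q hQ, isRelPrime_rename hf h0 h1,
    by rw [LL_rename hf]; exact h2⟩

/-- every polynomial has the partner `1` -/
theorem part_one {σ : Type} [Fintype σ] {F : MvPolynomial σ ℤ} (hF : F ≠ 0) : Part (LL F 1) F :=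
  ⟨hF, 1, one_ne_zero, isRelPrime_one_right, le_rfl⟩

/-- constants -/
theorem part_const {σ : Type} [Fintype σ] {P : MvPolynomial σ ℤ} (hP : P ≠ 0)
    (hd : P.totalDegree = 0) : Part (Real.log 2 + 2 * mm P) P := by
  refine (part_one hP).mono ?_
  rw [totalDegree_eq_zero_iff_eq_C] at hd
  have hc : coeff 0 P ≠ 0 := by
    intro h
    rw [h, C_0] at hd
    exact hP hd
  have h1 : ∀ t : Tor σ, ‖ev t P‖ = |((coeff 0 P : ℤ) : ℝ)| := by
    intro t
    conv_lhs => rw [hd]
    simp [ev]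
  have h2 : mm P = Real.log |((coeff 0 P : ℤ) : ℝ)| := by
    rw [mm]
    simp_rw [h1]
    simp
  have h3 : LL P 1 = Real.log (|((coeff 0 P : ℤ) : ℝ)| ^ 2 + 1) := by
    rw [LL]
    simp_rw [h1, map_one]
    simp
  have h4 : (1 : ℝ) ≤ |((coeff 0 P : ℤ) : ℝ)| := by
    have := Int.one_le_abs hc
    exact_mod_cast this
  rw [h2, h3]
  have h5 : Real.log 2 + 2 * Real.log |((coeff 0 P : ℤ) : ℝ)| =
      Real.log (2 * |((coeff 0 P : ℤ) : ℝ)| ^ 2) := by
    rw [Real.log_mul (by norm_num) (by positivity), Real.log_pow]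
    norm_num
  rw [h5]
  refine Real.log_le_log (by positivity) ?_
  nlinarith

/-- nonreciprocal polynomials -/
theorem part_nonrecip {σ : Type} [Fintype σ] {P : MvPolynomial σ ℤ} (hP : Irreducible P)
    (hr : ¬ Recip P) : Part (Real.log 2 + 2 * mm P) P := by
  refine ⟨hP.ne_zero, rev (degs P) P, rev_ne_zero hP.ne_zero le_degs,
    hP.isRelPrime_iff_not_dvd.2 (not_dvd_rev hP.ne_zero hr), ?_⟩
  rw [LL_rev hP.ne_zero le_degs]

/-- polynomials with few exponents in some direction -/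
theorem part_sparse {σ : Type} [Fintype σ] (lam : σ → ℤ) (m : ℕ) {P : MvPolynomial σ ℤ}
    (hP : Irreducible P) (h2 : 2 ≤ (wts lam P).card) (hm : (wts lam P).card ≤ m) :
    Part (Real.log 2 + 2 * (Real.log (m * 2 ^ m) + mm P)) P := by
  refine ⟨hP.ne_zero, face lam P, face_ne_zero lam hP.ne_zero, ?_, LL_face_sparse lam m hP.ne_zero hm⟩
  refine hP.isRelPrime_iff_not_dvd.mpr fun h => ?_
  have h3 := face_eq_self_of_dvd_int hP.ne_zero h
  rw [face_eq_self_iff] at h3
  obtain ⟨a, ha, b, hb, hab⟩ := Finset.one_lt_card.mp h2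
  unfold wts at ha hb
  obtain ⟨s, hs, rfl⟩ := Finset.mem_image.mp ha
  obtain ⟨s', hs', rfl⟩ := Finset.mem_image.mp hb
  exact hab (h3 s hs s' hs')

/-- the tame irreducible polynomials -/
def Tame {σ : Type} (m : ℕ) (P : MvPolynomial σ ℤ) : Prop :=
  P.totalDegree = 0 ∨ ¬ Recip P ∨ ∃ lam : σ → ℤ, 2 ≤ (wts lam P).card ∧ (wts lam P).card ≤ m

theorem part_tame {σ : Type} [Fintype σ] {m : ℕ} {X : ℝ} {P : MvPolynomial σ ℤ}
    (hP : Irreducible P) (hX : mm P ≤ X) (h : Tame m P) :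
    Part (Real.log 2 + 2 * (|Real.log (m * 2 ^ m)| + X)) P := by
  have h0 := abs_nonneg (Real.log (m * 2 ^ m))
  have h1 := le_abs_self (Real.log (m * 2 ^ m))
  rcases h with h | h | ⟨lam, h2, hm⟩
  · exact (part_const hP.ne_zero h).mono (by linarith)
  · exact (part_nonrecip hP h).mono (by linarith)
  · exact (part_sparse lam m hP h2 hm).mono (by linarith)

/-- measures of products as sums -/
theorem mm_prod {σ : Type} [Fintype σ] (s : Multiset (MvPolynomial σ ℤ)) (hs : ∀ P ∈ s, P ≠ 0) :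
    s.prod ≠ 0 ∧ mm s.prod = (s.map mm).sum := by
  induction s using Multiset.induction_on with
  | empty => simp [mm, ev]
  | cons P s ih =>
    obtain ⟨h1, h2⟩ := ih fun Q hQ => hs Q (Multiset.mem_cons_of_mem hQ)
    have h3 := hs P (Multiset.mem_cons_self _ _)
    rw [Multiset.prod_cons, Multiset.map_cons, Multiset.sum_cons, mm_mul h3 h1, h2]
    exact ⟨mul_ne_zero h3 h1, rfl⟩

/-- measures of polynomials with tame factors -/
theorem sum_of_tame {σ : Type} [Fintype σ] {c X : ℝ} (F : MvPolynomial σ ℤ) :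
    F ≠ 0 → mm F ≤ X →
    (∀ P, Irreducible P → P ∣ F → mm P ≠ 0 → mm P ≤ X → Part c P) →
    ∃ s : Multiset (MvPolynomial σ ℤ), (∀ P ∈ s, Part c P) ∧ (s.map mm).sum = mm F := by
  classical
  refine WfDvdMonoid.induction_on_irreducible (motive := fun F : MvPolynomial σ ℤ =>
    F ≠ 0 → mm F ≤ X →
    (∀ P, Irreducible P → P ∣ F → mm P ≠ 0 → mm P ≤ X → Part c P) →
    ∃ s : Multiset (MvPolynomial σ ℤ), (∀ P ∈ s, Part c P) ∧ (s.map mm).sum = mm F) F ?_ ?_ ?_
  · intro h; exact absurd rfl h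
  · intro u hu _ _ _
    exact ⟨0, by simp, by rw [mm_unit hu]; simp⟩
  · intro a i ha hi ih _ hT hH
    have hi0 : i ≠ 0 := hi.ne_zero
    have hmul := mm_mul hi0 ha
    have hni := mm_nonneg i
    have hna := mm_nonneg a
    obtain ⟨s, hs, hsum⟩ := ih ha (by linarith) (fun P hP hPa h2 h3 =>
      hH P hP (hPa.mul_left i) h2 h3)
    by_cases h0 : mm i = 0
    · exact ⟨s, hs, by rw [hsum, hmul, h0, zero_add]⟩
    · have h1 := hH i hi (Dvd.intro _ rfl) h0 (by linarith)
      refine ⟨i ::ₘ s, ?_, by rw [Multiset.map_cons, Multiset.sum_cons, hsum, hmul]⟩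
      intro P hP
      rcases Multiset.mem_cons.mp hP with rfl | hP
      · exact h1
      · exact hs P hP

/-- the set of the logarithmic measures of products -/
def PP (c : ℝ) : Set ℝ := {x | ∃ (k : ℕ) (s : Multiset (MvPolynomial (Fin k) ℤ)),
  (∀ P ∈ s, Part c P) ∧ mm s.prod = x}

theorem exists_common_vars {c : ℝ} (s : Multiset ℝ) (hs : ∀ v ∈ s, v ∈ SS c) :
    ∃ (k : ℕ) (t : Multiset (MvPolynomial (Fin k) ℤ)), (∀ P ∈ t, Part c P) ∧ t.map mm = s := by
  classical
  induction s using Multiset.induction_on with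
  | empty => exact ⟨0, 0, by simp, by simp⟩
  | cons v s ih =>
    obtain ⟨k, t, ht, hts⟩ := ih fun w hw => hs w (Multiset.mem_cons_of_mem hw)
    obtain ⟨k', F, hF, hFv⟩ := hs v (Multiset.mem_cons_self _ _)
    have hk : k ≤ max k k' := le_max_left _ _
    have hk' : k' ≤ max k k' := le_max_right _ _
    refine ⟨max k k', rename (Fin.castLE hk') F ::ₘ t.map (rename (Fin.castLE hk)), ?_, ?_⟩
    · intro P hP
      rcases Multiset.mem_cons.mp hP with rfl | hP
      · exact hF.rename (Fin.castLE_injective hk')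
      · obtain ⟨P', hP', rfl⟩ := Multiset.mem_map.mp hP
        exact (ht P' hP').rename (Fin.castLE_injective hk)
    · rw [Multiset.map_cons, mm_rename _ (Fin.castLE_injective hk'), hFv, Multiset.map_map]
      congr 1
      rw [← hts]
      refine Multiset.map_congr rfl fun P _ => ?_
      exact mm_rename _ (Fin.castLE_injective hk) P

theorem PP_eq (c : ℝ) : PP c = {x : ℝ | ∃ s : Multiset ℝ, (∀ v ∈ s, v ∈ SS c) ∧ s.sum = x} := by
  ext x
  constructor
  · rintro ⟨k, s, hs, rfl⟩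
    refine ⟨s.map mm, ?_, ((mm_prod s fun P hP => (hs P hP).1).2).symm⟩
    intro v hv
    obtain ⟨P, hP, rfl⟩ := Multiset.mem_map.mp hv
    exact ⟨k, P, hs P hP, rfl⟩
  · rintro ⟨s, hs, rfl⟩
    obtain ⟨k, t, ht, hts⟩ := exists_common_vars s hs
    exact ⟨k, t, ht, by rw [(mm_prod t fun P hP => (ht P hP).1).2, hts]⟩

theorem isClosed_PP (c : ℝ) : IsClosed (PP c) := by
  rw [PP_eq]
  obtain ⟨ε, hε, hgap⟩ := gap_SS c
  exact isClosed_sums (isClosed_SS c) (fun v hv => SS_nonneg hv) hε hgap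

theorem add_mem_PP {c x y : ℝ} (hx : x ∈ PP c) (hy : y ∈ PP c) : x + y ∈ PP c := by
  rw [PP_eq] at hx hy ⊢
  obtain ⟨s, hs, rfl⟩ := hx
  obtain ⟨t, ht, rfl⟩ := hy
  refine ⟨s + t, fun v hv => ?_, Multiset.sum_add s t⟩
  rcases Multiset.mem_add.mp hv with h | h
  · exact hs v h
  · exact ht v h

theorem PP_nonneg {c x : ℝ} (hx : x ∈ PP c) : 0 ≤ x := by
  obtain ⟨k, s, -, rfl⟩ := hx
  exact mm_nonneg _

theorem gap_PP (c : ℝ) : ∃ ε : ℝ, 0 < ε ∧ ∀ x ∈ PP c, x = 0 ∨ ε ≤ x := by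
  obtain ⟨ε, hε, hgap⟩ := gap_SS c
  refine ⟨ε, hε, fun x hx => ?_⟩
  rw [PP_eq] at hx
  obtain ⟨s, hs, rfl⟩ := hx
  by_cases h : ∀ v ∈ s, v = 0
  · left
    exact Multiset.sum_eq_zero h
  · push Not at h
    obtain ⟨v, hv, hv0⟩ := h
    right
    exact ((hgap v (hs v hv)).resolve_left hv0).trans
      (Multiset.single_le_sum (fun w hw => SS_nonneg (hs w hw)) v hv)

/-- the measures of polynomials with tame factors lie in one of the closed sets -/
theorem mem_PP_of_tame (m : ℕ) (X : ℝ) : ∃ c : ℝ, ∀ (k : ℕ) (F : MvPolynomial (Fin k) ℤ), F ≠ 0 →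
    mm F ≤ X → (∀ P, Irreducible P → P ∣ F → mm P ≠ 0 → Tame m P) → mm F ∈ PP c := by
  refine ⟨Real.log 2 + 2 * (|Real.log (m * 2 ^ m)| + X), fun k F hF hX hT => ?_⟩
  obtain ⟨s, hs, hsum⟩ := sum_of_tame (c := Real.log 2 + 2 * (|Real.log (m * 2 ^ m)| + X)) F hF hX
    (fun P hP hPF h0 hPX => part_tame hP hPX (hT P hP hPF h0))
  exact ⟨k, s, hs, by rw [(mm_prod s fun P hP => (hs P hP).1).2, hsum]⟩

end Pool.Agent.NRG
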