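import Pool.Agent.NRG.S01Pair

/-!
# The tame part of any polynomial divides a small sparse polynomial
-/

open MvPolynomial MeasureTheory Filter Topology Pool.Agent.H27Mahler
open Pool.Agent.SpCl Pool.Agent.NRC

namespace Pool.Agent.NRG

theorem mm_associated {σ : Type} [Fintype σ] {P Q : MvPolynomial σ ℤ} (hP : P ≠ 0)
    (h : Associated P Q) : mm Q = mm P := by
  obtain ⟨u, rfl⟩ := h
  rw [mm_mul hP u.ne_zero, mm_unit u.isUnit, add_zero]

theorem tame_step {k : ℕ} {n m : ℕ} {c X ε : ℝ}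
    (hgap : ∀ v ∈ SS (cX n c X), v = 0 ∨ ε ≤ v)
    (hm : ∀ F Q : MvPolynomial (Fin k) ℤ, F ≠ 0 → Q ≠ 0 → IsRelPrime F Q → LL F Q ≤ cX n c X →
      ∃ α : MvPolynomial (Fin k) ℤ, α ≠ 0 ∧ F ∣ α ∧ α.support.card ≤ m ∧ ∀ s, |α.coeff s| ≤ m)
    (F : MvPolynomial (Fin k) ℤ) (hF : F ≠ 0) (hX : mm F ≤ X) :
    ∃ (H R G : MvPolynomial (Fin k) ℤ) (r : ℕ), F = H * R ∧
      (∀ P, Irreducible P → P ∣ R → mm P = 0 ∨ ¬ TameC n c P) ∧ G ≠ 0 ∧ H ∣ G ∧ r * ε ≤ mm F ∧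
      G.support.card ≤ m ^ r ∧ ∀ s, |G.coeff s| ≤ ((m * m) ^ r : ℕ) := by
  classical
  refine WfDvdMonoid.induction_on_irreducible (motive := fun F : MvPolynomial (Fin k) ℤ =>
    F ≠ 0 → mm F ≤ X → ∃ (H R G : MvPolynomial (Fin k) ℤ) (r : ℕ), F = H * R ∧
      (∀ P, Irreducible P → P ∣ R → mm P = 0 ∨ ¬ TameC n c P) ∧ G ≠ 0 ∧ H ∣ G ∧ r * ε ≤ mm F ∧
      G.support.card ≤ m ^ r ∧ ∀ s, |G.coeff s| ≤ ((m * m) ^ r : ℕ)) F ?_ ?_ ?_ hF hX
  · intro h; exact absurd rfl h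
  · intro u hu _ _
    refine ⟨1, u, 1, 0, by rw [one_mul], fun P hP hPu => ?_, one_ne_zero, dvd_rfl, ?_, ?_, ?_⟩
    · exact absurd (isUnit_of_dvd_unit hPu hu) hP.not_isUnit
    · have := mm_nonneg u
      simpa using this
    · rw [pow_zero, ← C_1]
      have := support_monomial_subset (R := ℤ) (a := 1) (s := (0 : Fin k →₀ ℕ))
      exact (Finset.card_le_card this).trans (by simp)
    · intro s
      rw [pow_zero, coeff_one]
      split_ifs <;> simp
  · intro a i ha hi ih _ hT'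
    have hmul := mm_mul hi.ne_zero ha
    have hni := mm_nonneg i
    have hna := mm_nonneg a
    obtain ⟨H, R, G, r, hHR, hR, hG, hHG, hr, hc, hs⟩ := ih ha (by linarith)
    by_cases hgood : ∃ i', Associated i' i ∧ mm i' ≠ 0 ∧ TameC n c i'
    · obtain ⟨i', hass, h0, ht⟩ := hgood
      have hi' : Irreducible i' := (hass.irreducible_iff).mpr hi
      have hmi : mm i = mm i' := mm_associated hi'.ne_zero hass
      have hpart : Part (cX n c X) i' := part_tameC hi' (by linarith) ht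
      obtain ⟨hi0, Q, hQ, hrel, hLL⟩ := hpart
      obtain ⟨α, hα, hiα, hcα, hsα⟩ := hm i' Q hi0 hQ hrel hLL
      have hge : ε ≤ mm i' :=
        (hgap _ ⟨k, i', ⟨hi0, Q, hQ, hrel, hLL⟩, rfl⟩).resolve_left h0
      have hiα' : i ∣ α := (hass.dvd_iff_dvd_left).mp hiα
      refine ⟨i * H, R, α * G, r + 1, by rw [hHR]; ring, hR, mul_ne_zero hα hG,
        mul_dvd_mul hiα' hHG, ?_, ?_, ?_⟩
      · push_cast
        rw [hmul, hmi]
        linarith
      · refine (card_support_mul_le α G).trans ?_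
        rw [pow_succ, mul_comm]
        exact Nat.mul_le_mul hc hcα
      · intro s
        have h3 := abs_coeff_mul_le hcα hsα hs s
        rwa [show m * m * (m * m) ^ r = (m * m) ^ (r + 1) by ring] at h3
    · push Not at hgood
      refine ⟨H, i * R, G, r, by rw [hHR]; ring, fun P hP hPd => ?_, hG, hHG, by linarith, hc, hs⟩
      rcases hP.prime.dvd_or_dvd hPd with h1 | h1
      · by_cases h2 : mm P = 0
        · exact Or.inl h2
        · exact Or.inr (hgood P (hP.associated_of_dvd hi h1) h2)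
      · exact hR P hP h1

theorem tame_all (n : ℕ) (c X : ℝ) : ∃ m : ℕ, ∀ (k : ℕ) (F : MvPolynomial (Fin k) ℤ), F ≠ 0 →
    mm F ≤ X → ∃ H R G : MvPolynomial (Fin k) ℤ, F = H * R ∧
      (∀ P, Irreducible P → P ∣ R → Recip P ∧ (mm P = 0 ∨ ¬ TameC n c P)) ∧
      G ≠ 0 ∧ H ∣ G ∧ G.support.card ≤ m ∧ ∀ s, |G.coeff s| ≤ m := by
  obtain ⟨m0, hm0⟩ := sp_pair (cX n c X)
  obtain ⟨ε, hε, hgap⟩ := gap_SS (cX n c X)
  set m := m0 + 1 with hmdef
  have hm1 : 1 ≤ m := by omega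
  refine ⟨(m * m) ^ ⌈X / ε⌉₊, fun k F hF hX => ?_⟩
  obtain ⟨H, R, G, r, h1, h2, h3, h4, h5, h6, h7⟩ := tame_step (c := c) (X := X) (n := n) (m := m)
    hgap (fun F' Q' hF' hQ' hrel' hT' => by
      obtain ⟨α, g1, g2, g3, g4⟩ := hm0 k F' Q' hF' hQ' hrel' hT'
      exact ⟨α, g1, g2, g3.trans (by omega), fun s => (g4 s).trans (by push_cast [hmdef]; omega)⟩)
    F hF hX
  have hr : r ≤ ⌈X / ε⌉₊ := by
    have h8 : (r : ℝ) ≤ X / ε := by
      rw [le_div_iff₀ hε]; linarith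
    exact_mod_cast h8.trans (Nat.le_ceil _)
  have hle : (m * m) ^ r ≤ (m * m) ^ ⌈X / ε⌉₊ := Nat.pow_le_pow_right (by positivity) hr
  refine ⟨H, R, G, h1, fun P hP hPR => ⟨?_, h2 P hP hPR⟩, h3, h4, h6.trans ?_,
    fun s => (h7 s).trans (by exact_mod_cast hle)⟩
  · by_contra hcon
    rcases h2 P hP hPR with h | h
    · have h9 := mm_nonrecip_ge hP hcon
      have h10 := c0_pos
      linarith
    · exact h (Or.inl (Or.inr (Or.inl hcon)))
  · refine le_trans ?_ hle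
    exact Nat.pow_le_pow_left (Nat.le_mul_self m) r

end Pool.Agent.NRG
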