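import Pool.Agent.NRC.C12SpAll
import Pool.Agent.NRG.G11Red

/-!
# Polynomials with a coprime partner divide small sparse polynomials
-/

open MvPolynomial LaurentPolynomial MeasureTheory Filter Topology Pool.Agent.H27Mahler
open Pool.Agent.SpCl Pool.Agent.NRC

namespace Pool.Agent.NRG

/-- one variable -/
theorem sp_pair_one (T : ℝ) : ∃ m : ℕ, ∀ P Q : LZ, P ≠ 0 → Q ≠ 0 → lp P Q ≤ T →
    ∃ a b : LZ, a ≠ 0 ∧ Small m a ∧ Small m b ∧ a * Q = b * P := by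
  by_contra hcon
  push Not at hcon
  choose P Q hP hQ hT hbad using hcon
  let l : Ultrafilter ℕ := Filter.hyperfilter ℕ
  have hl : (l : Filter ℕ) ≤ atTop := by
    rw [← Nat.cofinite_eq_atTop]
    exact Filter.hyperfilter_le_cofinite
  obtain ⟨K, γ, A, B, hγ, hA, hB, hAB, hrel⟩ := thmB l hP hQ
    (M := (1 + 1) * Real.exp T) (Filter.Eventually.of_forall fun n => by
      refine (bdS (hP n) one_pos).bd.mono ?_
      have := hT n
      gcongr)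
  have hA' := hγ.sp_ne_zero hA
  obtain ⟨m, hm1, hm2, hm3, hm4⟩ : ∃ m : ℕ, A.support.card ≤ m ∧ B.support.card ≤ m ∧
      ∑ s ∈ A.support, |A.coeff s| ≤ m ∧ ∑ s ∈ B.support, |B.coeff s| ≤ m := by
    refine ⟨A.support.card + B.support.card + (∑ s ∈ A.support, |A.coeff s|).toNat +
      (∑ s ∈ B.support, |B.coeff s|).toNat, by omega, by omega, ?_, ?_⟩ <;> push_cast <;> omega
  obtain ⟨n, ⟨hn1, hn2⟩, hn3⟩ := ((hrel.and hA').and (hl (eventually_ge_atTop m))).exists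
  exact hbad n (sp (γ n) A) (sp (γ n) B) hn2
    (small_sp _ _ (hm1.trans hn3) (hm3.trans (by exact_mod_cast hn3)))
    (small_sp _ _ (hm2.trans hn3) (hm4.trans (by exact_mod_cast hn3))) hn1

/-- several variables -/
theorem sp_pair (T : ℝ) : ∃ m : ℕ, ∀ (k : ℕ) (F Q : MvPolynomial (Fin k) ℤ), F ≠ 0 → Q ≠ 0 →
    IsRelPrime F Q → LL F Q ≤ T →
    ∃ α : MvPolynomial (Fin k) ℤ, α ≠ 0 ∧ F ∣ α ∧ α.support.card ≤ m ∧ ∀ s, |α.coeff s| ≤ m := by
  classical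
  obtain ⟨m, hm⟩ := sp_pair_one (T + 1)
  refine ⟨m, fun k F Q hF hQ hrel hT => ?_⟩
  obtain ⟨r, hr⟩ := exists_free k
  have hl : ((hyperfilter ℕ : Ultrafilter ℕ) : Filter ℕ) ≤ atTop := by
    rw [← Nat.cofinite_eq_atTop]
    exact hyperfilter_le_cofinite
  have h1 : ∀ᶠ n in atTop, lp (sp (r n) F) (sp (r n) Q) ≤ T + 1 := by
    filter_upwards [(tendsto_lp hr hF Q).eventually_lt_const (show LL F Q < T + 1 by linarith)]
      with n hn
    exact hn.le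
  have hex : ∀ n, ∃ a b : LZ, (sp (r n) F ≠ 0 ∧ sp (r n) Q ≠ 0 ∧
      lp (sp (r n) F) (sp (r n) Q) ≤ T + 1) →
      a ≠ 0 ∧ Small m a ∧ Small m b ∧ a * sp (r n) Q = b * sp (r n) F := by
    intro n
    by_cases h : sp (r n) F ≠ 0 ∧ sp (r n) Q ≠ 0 ∧ lp (sp (r n) F) (sp (r n) Q) ≤ T + 1
    · obtain ⟨a, b, hab⟩ := hm _ _ h.1 h.2.1 h.2.2
      exact ⟨a, b, fun _ => hab⟩
    · exact ⟨0, 0, fun h' => absurd h' h⟩
  choose a b hab using hex
  have hfree' : Free ((hyperfilter ℕ : Ultrafilter ℕ) : Filter ℕ) r := fun t ht => hl (hr t ht)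
  obtain ⟨α, β, hα0, hα1, hα2, hαβ⟩ := lift_relation (hyperfilter ℕ) hfree' F Q m
    (a := a) (b := b) (by
      have h2 : ∀ᶠ n in atTop, a n ≠ 0 ∧ Small m (a n) ∧ Small m (b n) ∧
          a n * sp (r n) Q = b n * sp (r n) F := by
        filter_upwards [h1, hr.sp_ne_zero hF, hr.sp_ne_zero hQ] with n hn1 hn2 hn3
        exact hab n ⟨hn2, hn3, hn1⟩
      exact hl h2)
  refine ⟨α, hα0, ?_, hα1, hα2⟩
  exact hrel.dvd_of_dvd_mul_right ⟨β, by rw [hαβ, mul_comm]⟩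

end Pool.Agent.NRG
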